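import Pool.Agent.H42V.Defs
import Pool.Agent.Helper49.UM.Star

/-!
From the recursion over the levels to the cost.
-/

namespace Pool.Agent.H42V

open Finset Pool.Agent.Helper8.OT Pool.Agent.Helper49.UM

variable {V : Type} [Fintype V] [DecidableEq V]

private theorem sum_delta_le (δ : ℕ → ℝ) (hδz : δ 0 = 0) (hδ0 : ∀ k, 0 ≤ δ k)
    (hδ : ∀ k, 1 ≤ k → 2 * δ k ≤ δ (k + 1)) (l : ℕ) :
    ∑ k ∈ range l, δ (k + 1) ≤ 2 * δ l := by
  induction l with
  | zero =>
    rw [sum_range_zero, hδz, mul_zero]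
  | succ l ih =>
    rw [sum_range_succ]
    have h : 2 * δ l ≤ δ (l + 1) := by
      rcases Nat.eq_zero_or_pos l with h | h
      · rw [h, hδz, mul_zero]
        exact hδ0 _
      · exact hδ l h
    linarith

private theorem sum_if_le (δ : ℕ → ℝ) (hδz : δ 0 = 0) (hδ0 : ∀ k, 0 ≤ δ k)
    (hδ : ∀ k, 1 ≤ k → 2 * δ k ≤ δ (k + 1)) (K l : ℕ) (hl : l ≤ K) :
    ∑ k ∈ range K, (if k < l then δ (k + 1) else 0) ≤ 2 * δ l := by
  have h : ∑ k ∈ range K, (if k < l then δ (k + 1) else 0) = ∑ k ∈ range l, δ (k + 1) := by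
    rw [← sum_filter]
    refine sum_congr ?_ (fun _ _ => rfl)
    ext k
    rw [mem_filter, mem_range, mem_range]
    omega
  rw [h]
  exact sum_delta_le δ hδz hδ0 hδ l

private theorem sum_pair {lev : V → V → ℕ} (hlev : IsUlt lev) (k : ℕ) (x y : V) :
    ∑ v ∈ clusters lev k, (if x ∈ v ∧ y ∉ v then (1 : ℝ) else 0) = if k < lev x y then 1 else 0 := by
  rw [sum_eq_single (cl lev k x)]
  · have h1 : (x ∈ cl lev k x ∧ y ∉ cl lev k x) ↔ k < lev x y := by
      rw [mem_cl (i := x) (j := y)]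
      exact ⟨fun h => not_le.1 h.2, fun h => ⟨self_mem_cl hlev k x, not_le.2 h⟩⟩
    exact if_congr h1 rfl rfl
  · intro v hv hne
    refine if_neg fun h => hne (mem_clusters hlev hv h.1)
  · intro h
    exact absurd (cl_mem_clusters lev k x) h

private theorem sum_lev (δ : ℕ → ℝ) (K n : ℕ) (f : ℕ → ℕ) :
    ∑ k ∈ range K, δ (k + 1) * ∑ t ∈ range n, (if k < f t then (1 : ℝ) else 0) =
      ∑ t ∈ range n, ∑ k ∈ range K, if k < f t then δ (k + 1) else 0 := by
  simp only [mul_sum]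
  rw [sum_comm]
  refine sum_congr rfl ?_
  intro t _
  refine sum_congr rfl ?_
  intro k _
  split_ifs
  · rw [mul_one]
  · rw [mul_zero]

private theorem sum_two {lev : V → V → ℕ} (hlev : IsUlt lev) (k n : ℕ) (u s : ℕ → V) :
    ∑ v ∈ clusters lev k, (ou u s n v : ℝ) =
      ∑ t ∈ range n, if k < lev (u t) (s t) then 1 else 0 := by
  have h1 : ∀ v : Finset V, (ou u s n v : ℝ) =
      ∑ t ∈ range n, if u t ∈ v ∧ s t ∉ v then (1 : ℝ) else 0 := by
    intro v
    unfold ou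
    rw [sum_boole]
  rw [sum_congr rfl fun v _ => h1 v, sum_comm]
  exact sum_congr rfl fun t _ => sum_pair hlev k (u t) (s t)

private theorem excess_le {lev : V → V → ℕ} (hlev : IsUlt lev) (a : V → ℕ) (u : ℕ → V) (n : ℕ)
    (σ : ℕ → V) (hσ : ∀ i, ((range n).filter (fun t => σ t = i)).card ≤ a i) (k : ℕ) :
    ∑ v ∈ clusters lev k, max 0 ((ld u n v : ℝ) - ∑ i ∈ v, (a i : ℝ)) ≤
      ∑ t ∈ range n, if k < lev (u t) (σ t) then 1 else 0 := by
  rw [← sum_two hlev k n u σ]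
  refine sum_le_sum fun v _ => max_le (Nat.cast_nonneg _) ?_
  have h1 : ld σ n v ≤ ∑ i ∈ v, a i := by
    rw [ld_sum]
    refine sum_le_sum fun i _ => ?_
    refine le_trans (le_of_eq ?_) (hσ i)
    unfold ld
    congr 1
    refine filter_congr fun t _ => ?_
    rw [mem_singleton]
  have h2 := ld_add_ou u σ n v
  have h3 : ld u n v ≤ ld σ n v + ou u σ n v := by omega
  have h4 : (ld u n v : ℝ) ≤ ∑ i ∈ v, (a i : ℝ) + ou u σ n v := by
    have : ld u n v ≤ ∑ i ∈ v, a i + ou u σ n v := by omega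
    exact_mod_cast this
  linarith

private theorem delta_mono (δ : ℕ → ℝ) (hδz : δ 0 = 0) (hδ0 : ∀ k, 0 ≤ δ k)
    (hδ : ∀ k, 1 ≤ k → 4 * δ k ≤ δ (k + 1)) {k l : ℕ} (h : k ≤ l) : δ k ≤ δ l := by
  induction l, h using Nat.le_induction with
  | base => exact le_rfl
  | succ l _ ih =>
    refine ih.trans ?_
    rcases Nat.eq_zero_or_pos l with h | h
    · rw [h, hδz]
      exact hδ0 _
    · have := hδ l h
      have := hδ0 l
      linarith

private theorem cnt_ge_split (ℓ : ℕ → ℕ) (k n : ℕ) :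
    cnt (fun r => k ≤ ℓ r) n = cnt (fun r => ℓ r = k) n + cnt (fun r => k + 1 ≤ ℓ r) n := by
  rw [cnt_split (fun r => k ≤ ℓ r) (fun r => ℓ r = k)]
  congr 1
  · exact cnt_congr fun r _ => ⟨fun h => h.2, fun h => ⟨h.ge, h⟩⟩
  · exact cnt_congr fun r _ => ⟨fun h => by omega, fun h => ⟨by omega, by omega⟩⟩

theorem cost_levels {lev : V → V → ℕ} (hlev : IsUlt lev) (K : ℕ)
    (hK : ∀ i j, lev i j ≤ K) (δ : ℕ → ℝ) (hδz : δ 0 = 0) (hδ0 : ∀ k, 0 ≤ δ k)
    (hδ : ∀ k, 1 ≤ k → 4 * δ k ≤ δ (k + 1)) (H : ℝ) (hH : 0 ≤ H)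
    {a : V → ℕ} {u s : ℕ → V} {ℓ : ℕ → ℕ} {n : ℕ}
    (hℓ : ∀ r < n, lev (u r) (s r) ≤ ℓ r ∧ ℓ r ≤ K)
    (hrec : ∀ k < K, (cnt (fun r => ℓ r = k + 1) n : ℝ) ≤
      H * ∑ v ∈ clusters lev k, max 0 ((ld u n v : ℝ) - ∑ i ∈ v, (a i : ℝ)) +
        cnt (fun r => k + 2 ≤ ℓ r) n)
    (σ : ℕ → V) (hσ : ∀ i, ((range n).filter (fun t => σ t = i)).card ≤ a i) :
    ∑ r ∈ range n, δ (lev (u r) (s r)) ≤ 4 * H * ∑ r ∈ range n, δ (lev (u r) (σ r)) := by
  set z : ℕ → ℝ := fun k => ∑ v ∈ clusters lev k, max 0 ((ld u n v : ℝ) - ∑ i ∈ v, (a i : ℝ))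
    with hz
  set G : ℕ → ℝ := fun k => (cnt (fun r => k ≤ ℓ r) n : ℝ) with hG
  have hG0 : ∀ k, 0 ≤ G k := fun k => Nat.cast_nonneg _
  have hz0 : ∀ k, 0 ≤ z k := fun k => sum_nonneg fun v _ => le_max_left _ _
  have hδ2 : ∀ k, 1 ≤ k → 2 * δ k ≤ δ (k + 1) := by
    intro k hk
    have := hδ k hk
    have := hδ0 k
    linarith
  have hrec' : ∀ k < K, G (k + 1) ≤ H * z k + 2 * G (k + 2) := by
    intro k hk
    have h1 := hrec k hk
    have h2 : G (k + 1) = (cnt (fun r => ℓ r = k + 1) n : ℝ) + G (k + 2) := by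
      simp only [hG]
      exact_mod_cast cnt_ge_split ℓ (k + 1) n
    rw [h2]
    have h3 : G (k + 2) = (cnt (fun r => k + 2 ≤ ℓ r) n : ℝ) := rfl
    rw [← h3] at h1
    linarith
  have hGK : G (K + 1) = 0 := by
    simp only [hG]
    rw [cnt_eq_zero fun r hr h => by have := (hℓ r hr).2; omega]
    simp
  set A := ∑ k ∈ range K, δ (k + 1) * z k with hA
  set S := ∑ k ∈ range K, δ (k + 1) * G (k + 1) with hS
  have hSA : S ≤ 2 * (H * A) := by
    have h1 : S ≤ ∑ k ∈ range K, (δ (k + 1) * (H * z k) + δ (k + 1) * (2 * G (k + 2))) := by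
      refine sum_le_sum fun k hk => ?_
      rw [← mul_add]
      exact mul_le_mul_of_nonneg_left (hrec' k (mem_range.1 hk)) (hδ0 _)
    rw [sum_add_distrib] at h1
    have h2 : ∑ k ∈ range K, δ (k + 1) * (H * z k) = H * A := by
      rw [hA, mul_sum]
      exact sum_congr rfl fun k _ => by ring
    have h3 : ∑ k ∈ range K, δ (k + 1) * (2 * G (k + 2)) ≤ S / 2 := by
      rcases Nat.eq_zero_or_pos K with h | h
      · rw [hS, h]
        simp
      · obtain ⟨K', rfl⟩ : ∃ K', K = K' + 1 := ⟨K - 1, by omega⟩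
        rw [sum_range_succ, hGK, mul_zero, mul_zero, add_zero, hS, sum_range_succ']
        have h4 : ∑ k ∈ range K', δ (k + 1) * (2 * G (k + 2)) ≤
            (∑ k ∈ range K', δ (k + 1 + 1) * G (k + 1 + 1)) / 2 := by
          rw [sum_div]
          refine sum_le_sum fun k _ => ?_
          have h5 := hδ (k + 1) (by omega)
          have h6 := hG0 (k + 2)
          have h7 := mul_le_mul_of_nonneg_right h5 h6
          have h8 : G (k + 1 + 1) = G (k + 2) := rfl
          rw [h8]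
          linarith
        have h5 : 0 ≤ δ (0 + 1) * G (0 + 1) := mul_nonneg (hδ0 _) (hG0 _)
        linarith
    linarith
  have hL : ∑ r ∈ range n, δ (lev (u r) (s r)) ≤ S := by
    have h1 : S = ∑ k ∈ range K, δ (k + 1) *
        ∑ t ∈ range n, (if k < ℓ t then (1 : ℝ) else 0) := by
      rw [hS]
      refine sum_congr rfl fun k _ => ?_
      congr 1
      simp only [hG]
      unfold cnt
      rw [card_filter]
      push_cast
      refine sum_congr rfl fun r _ => ?_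
      by_cases h : k < ℓ r
      · rw [if_pos h, if_pos (Nat.succ_le_of_lt h)]
      · rw [if_neg h, if_neg (fun h' => h (Nat.lt_of_succ_le h'))]
    rw [h1, sum_lev δ K n ℓ]
    refine sum_le_sum fun r hr => ?_
    obtain ⟨h2, h3⟩ := hℓ r (mem_range.1 hr)
    refine (delta_mono δ hδz hδ0 hδ h2).trans ?_
    have h0 : ∀ k ∈ range K, 0 ≤ (if k < ℓ r then δ (k + 1) else 0) := by
      intro k _
      split_ifs
      · exact hδ0 _
      · exact le_rfl
    rcases Nat.eq_zero_or_pos (ℓ r) with h | h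
    · rw [h, hδz]
      rw [h] at h0
      exact sum_nonneg h0
    · obtain ⟨m, hm⟩ := Nat.exists_eq_succ_of_ne_zero h.ne'
      have h4 := single_le_sum h0 (mem_range.mpr (show m < K by omega))
      rw [if_pos (by omega)] at h4
      have h5 : δ (ℓ r) = δ (m + 1) := by rw [hm]
      rw [h5]
      exact h4
  have hR : A ≤ 2 * ∑ t ∈ range n, δ (lev (u t) (σ t)) := by
    have h1 : A ≤ ∑ k ∈ range K, δ (k + 1) *
        ∑ t ∈ range n, (if k < lev (u t) (σ t) then (1 : ℝ) else 0) :=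
      sum_le_sum fun k _ => mul_le_mul_of_nonneg_left (excess_le hlev a u n σ hσ k) (hδ0 _)
    refine h1.trans ?_
    rw [sum_lev δ K n (fun t => lev (u t) (σ t)), mul_sum]
    exact sum_le_sum fun t _ => sum_if_le δ hδz hδ0 hδ2 K _ (hK _ _)
  have hHA := mul_le_mul_of_nonneg_left hR hH
  calc ∑ r ∈ range n, δ (lev (u r) (s r)) ≤ S := hL
    _ ≤ 2 * (H * A) := hSA
    _ ≤ 2 * (H * (2 * ∑ t ∈ range n, δ (lev (u t) (σ t)))) := by linarith
    _ = 4 * H * ∑ r ∈ range n, δ (lev (u r) (σ r)) := by ring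

end Pool.Agent.H42V
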