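import Pool.Agent.H42V.Step
import Pool.Agent.H42V.Cost
import Pool.Agent.Helper49.UM.Scale

/-!
The online algorithm on the sites.
-/

namespace Pool.Agent.H42V

open Finset Pool.Agent.Helper8.OT Pool.Agent.Helper49.UM

variable {V : Type} [Fintype V] [DecidableEq V]

/-- The legal steps at time `t` only depend on the requests `r ≤ t` and the steps before. -/
private theorem lg_congr {lev : V → V → ℕ} {a c : V → ℕ} {N K : ℕ} {u u' s s' : ℕ → V}
    {ℓ ℓ' : ℕ → ℕ} {x x' : ℕ → Bool} {t : ℕ} (hu : ∀ r ≤ t, u r = u' r)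
    (hs : ∀ r < t, s r = s' r) (hℓ : ∀ r < t, ℓ r = ℓ' r) (hx : ∀ r < t, x r = x' r)
    {v : V × ℕ × Bool} (h : Lg lev a c N K u s ℓ x t v) : Lg lev a c N K u' s' ℓ' x' t v := by
  have h1 : ∀ v : Finset V, ld s t v = ld s' t v := fun v => ld_congr hs v
  have h2 : ∀ v : Finset V, ld u t v = ld u' t v := fun v => ld_congr (fun r hr => hu r hr.le) v
  have h3 : u t = u' t := hu t le_rfl
  have h4 : ∀ (L : ℕ) (Q : Finset V), cnt (fun r => (x r = true ∧ ℓ r = L) ∧ u r ∈ Q) t =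
      cnt (fun r => (x' r = true ∧ ℓ' r = L) ∧ u' r ∈ Q) t := fun L Q =>
    cnt_congr fun r hr => by rw [hx r hr, hℓ r hr, hu r hr.le]
  have h5 : ∀ (L : ℕ) (Q : Finset V), cnt (fun r => ℓ r = L ∧ s r ∈ Q) t =
      cnt (fun r => ℓ' r = L ∧ s' r ∈ Q) t := fun L Q =>
    cnt_congr fun r hr => by rw [hℓ r hr, hs r hr]
  have h6 : ∀ (L : ℕ) (Q : Finset V), cnt (fun r => (x r = true ∧ L ≤ ℓ r) ∧ u r ∈ Q) t =
      cnt (fun r => (x' r = true ∧ L ≤ ℓ' r) ∧ u' r ∈ Q) t := fun L Q =>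
    cnt_congr fun r hr => by rw [hx r hr, hℓ r hr, hu r hr.le]
  have h7 : ∀ (L : ℕ) (Q : Finset V), cnt (fun r => L ≤ ℓ r ∧ s r ∈ Q) t =
      cnt (fun r => L ≤ ℓ' r ∧ s' r ∈ Q) t := fun L Q =>
    cnt_congr fun r hr => by rw [hℓ r hr, hs r hr]
  have h8 : ∀ (L : ℕ) (i : V), cnt (fun r => ℓ r = L ∧ s r = i) t =
      cnt (fun r => ℓ' r = L ∧ s' r = i) t := fun L i =>
    cnt_congr fun r hr => by rw [hℓ r hr, hs r hr]
  unfold Lg Fu Wt XP at h ⊢
  simp only [h1, h2, h3, h4, h5, h6, h7, h8] at h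
  exact h

/-- The algorithm: choose a legal step, by recursion on the time. -/
private noncomputable def alV [Nonempty V] (lev : V → V → ℕ) (a c : V → ℕ) (N K : ℕ) (u : ℕ → V)
    (t : ℕ) : V × ℕ × Bool :=
  Classical.epsilon fun v => Lg lev a c N K u
    (fun r => if _h : r < t then (alV lev a c N K u r).1 else u r)
    (fun r => if _h : r < t then (alV lev a c N K u r).2.1 else 0)
    (fun r => if _h : r < t then (alV lev a c N K u r).2.2 else false) t v
termination_by t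

private theorem alV_eq [Nonempty V] (lev : V → V → ℕ) (a c : V → ℕ) (N K : ℕ) (u : ℕ → V)
    (t : ℕ) : alV lev a c N K u t = Classical.epsilon fun v => Lg lev a c N K u
      (fun r => (alV lev a c N K u r).1) (fun r => (alV lev a c N K u r).2.1)
      (fun r => (alV lev a c N K u r).2.2) t v := by
  rw [alV]
  congr 1
  funext v
  refine propext ⟨?_, ?_⟩
  · refine lg_congr (fun r _ => rfl) ?_ ?_ ?_ <;>
    · intro r hr
      simp [hr]
  · refine lg_congr (fun r _ => rfl) ?_ ?_ ?_ <;>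
    · intro r hr
      simp [hr]

private theorem alV_causal [Nonempty V] (lev : V → V → ℕ) (a c : V → ℕ) (N K : ℕ)
    (u u' : ℕ → V) (t : ℕ) (h : ∀ r ≤ t, u r = u' r) :
    alV lev a c N K u t = alV lev a c N K u' t := by
  induction t using Nat.strong_induction_on with
  | _ t ih =>
    rw [alV_eq, alV_eq]
    have hs : ∀ r < t, alV lev a c N K u r = alV lev a c N K u' r := fun r hr =>
      ih r hr (fun q hq => h q (hq.trans hr.le))
    congr 1
    funext v
    refine propext ⟨?_, ?_⟩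
    · exact lg_congr h (fun r hr => by rw [hs r hr]) (fun r hr => by rw [hs r hr])
        (fun r hr => by rw [hs r hr])
    · exact lg_congr (fun r hr => (h r hr).symm) (fun r hr => by rw [hs r hr])
        (fun r hr => by rw [hs r hr]) (fun r hr => by rw [hs r hr])

private theorem alV_lg [Nonempty V] {lev : V → V → ℕ} (hlev : IsUlt lev) (K : ℕ)
    (hK : ∀ i j, lev i j ≤ K) {a c : V → ℕ} (hac : ∀ i, a i < c i) (N : ℕ) (u : ℕ → V) (r : ℕ)
    (hr : r < ∑ i, c i) : Lg lev a c N K u (fun r => (alV lev a c N K u r).1)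
      (fun r => (alV lev a c N K u r).2.1) (fun r => (alV lev a c N K u r).2.2) r
      (alV lev a c N K u r) := by
  induction r using Nat.strong_induction_on with
  | _ r ih =>
    have hex := exists_lg hlev K hK hac N u (fun r => (alV lev a c N K u r).1)
      (fun r => (alV lev a c N K u r).2.1) (fun r => (alV lev a c N K u r).2.2) r
      (lg_le (fun q hq => (ih q hq (hq.trans hr)).1) r le_rfl)
      (fun q hq => ⟨lg_mem hlev (ih q hq (hq.trans hr)), lg_le_K (ih q hq (hq.trans hr))⟩) hr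
    have h1 := Classical.epsilon_spec hex
    rw [← alV_eq] at h1
    exact h1

/-- The factor. -/
private theorem fac_le (N : ℕ) :
    27 + 8 * Real.log (8 * (N + 1)) ≤ 44 + 8 * Real.log ((N : ℝ) + 1) := by
  have h1 : Real.log (8 * ((N : ℝ) + 1)) = 3 * Real.log 2 + Real.log ((N : ℝ) + 1) := by
    rw [Real.log_mul (by norm_num) (by positivity)]
    congr 1
    rw [show (8 : ℝ) = 2 ^ 3 by norm_num, Real.log_pow]
    norm_num
  rw [h1]
  have h2 := Real.log_two_lt_d9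
  linarith

theorem core [Nonempty V] {lev : V → V → ℕ} (hlev : IsUlt lev) (K : ℕ)
    (hK : ∀ i j, lev i j ≤ K) (δ : ℕ → ℝ) (hδz : δ 0 = 0) (hδ0 : ∀ k, 0 ≤ δ k)
    (a c : V → ℕ) (hac : ∀ i, a i < c i) (N : ℕ)
    (hN : ∀ S : Finset V, (∀ j ∈ S, 2 * ∑ i ∈ S, ((c i : ℝ) - a i) ≤ a j) → S.card ≤ N)
    (hδ : ∀ k, 1 ≤ k → 4 * δ k ≤ δ (k + 1)) :
    ∃ S : (ℕ → V) → ℕ → V, (∀ u u' t, (∀ r ≤ t, u r = u' r) → S u t = S u' t) ∧
      ∀ u n, n ≤ ∑ i, a i →
        (∀ i, ((range n).filter (fun r => S u r = i)).card ≤ c i) ∧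
        ∀ σ : ℕ → V, (∀ i, ((range n).filter (fun r => σ r = i)).card ≤ a i) →
          ∑ r ∈ range n, δ (lev (u r) (S u r)) ≤
            4 * (44 + 8 * Real.log ((N : ℝ) + 1)) *
              ∑ r ∈ range n, δ (lev (u r) (σ r)) := by
  have hlog : 0 ≤ Real.log ((N : ℝ) + 1) := Real.log_nonneg (by
    have : (0 : ℝ) ≤ N := Nat.cast_nonneg N
    linarith)
  have hasum : ∑ i, a i ≤ ∑ i, c i := sum_le_sum (fun i _ => (hac i).le)
  refine ⟨fun u t => (alV lev a c N K u t).1,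
    fun u u' t h => congrArg Prod.fst (alV_causal lev a c N K u u' t h), ?_⟩
  intro u n hn
  have hlg : ∀ r < n, Lg lev a c N K u (fun r => (alV lev a c N K u r).1)
      (fun r => (alV lev a c N K u r).2.1) (fun r => (alV lev a c N K u r).2.2) r
      ((fun r => (alV lev a c N K u r).1) r, (fun r => (alV lev a c N K u r).2.1) r,
        (fun r => (alV lev a c N K u r).2.2) r) := fun r hr =>
    alV_lg hlev K hK hac N u r (hr.trans_le (hn.trans hasum))
  constructor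
  · intro i
    have h1 := lg_le (fun r hr => (hlg r hr).1) n le_rfl i
    unfold ld at h1
    simpa only [mem_singleton] using h1
  · intro σ hσ
    refine cost_levels hlev K hK δ hδz hδ0 hδ (44 + 8 * Real.log ((N : ℝ) + 1)) (by linarith)
      (fun r hr => ⟨mem_cl.1 (lg_mem hlev (hlg r hr)), lg_le_K (hlg r hr)⟩) ?_ σ hσ
    intro k _
    refine (level_le hlev hac hN hlg k).trans ?_
    exact add_le_add (mul_le_mul_of_nonneg_right (fac_le N)
      (sum_nonneg fun _ _ => le_max_left _ _)) le_rfl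

/-- The algorithm for a finite ultrametric space of sites whose requests are sites. -/
theorem alg [Nonempty V] (U : V → V → ℝ) (h0 : ∀ i, U i i = 0) (hpos : ∀ i j, i ≠ j → 0 < U i j)
    (hsymm : ∀ i j, U i j = U j i) (hult : ∀ i j k, U i k ≤ max (U i j) (U j k))
    (a c : V → ℕ) (hac : ∀ i, a i < c i) (N : ℕ)
    (hN : ∀ S : Finset V, (∀ j ∈ S, 2 * ∑ i ∈ S, ((c i : ℝ) - a i) ≤ a j) → S.card ≤ N) :
    ∃ S : (ℕ → V) → ℕ → V, (∀ u u' t, (∀ r ≤ t, u r = u' r) → S u t = S u' t) ∧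
      ∀ u n, n ≤ ∑ i, a i →
        (∀ i, ((range n).filter (fun r => S u r = i)).card ≤ c i) ∧
        ∀ σ : ℕ → V, (∀ i, ((range n).filter (fun r => σ r = i)).card ≤ a i) →
          ∑ r ∈ range n, U (u r) (S u r) ≤
            16 * (44 + 8 * Real.log ((N : ℝ) + 1)) * ∑ r ∈ range n, U (u r) (σ r) := by
  have hlog : 0 ≤ Real.log ((N : ℝ) + 1) := Real.log_nonneg (by
    have : (0 : ℝ) ≤ N := Nat.cast_nonneg N
    linarith)
  set H : ℝ := 44 + 8 * Real.log ((N : ℝ) + 1) with hH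
  have hH2 : 2 ≤ H := by rw [hH]; linarith
  obtain ⟨lev, K, δ, hlev, hK, hδz, hδ0, hδ, hU⟩ :=
    scale U h0 hpos hsymm hult 4 (by norm_num)
  obtain ⟨S, hS1, hS2⟩ := core hlev K hK δ hδz hδ0 a c hac N hN hδ
  refine ⟨S, hS1, ?_⟩
  intro u n hn
  obtain ⟨h1, h2⟩ := hS2 u n hn
  refine ⟨h1, ?_⟩
  intro σ hσ
  have h3 := h2 σ hσ
  rw [← hH] at h3
  have h4 : ∑ r ∈ range n, U (u r) (S u r) ≤ ∑ r ∈ range n, δ (lev (u r) (S u r)) :=
    sum_le_sum (fun r _ => (hU (u r) (S u r)).1)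
  have h5 : ∑ r ∈ range n, δ (lev (u r) (σ r)) ≤ 4 * ∑ r ∈ range n, U (u r) (σ r) := by
    rw [mul_sum]
    exact sum_le_sum (fun r _ => (hU (u r) (σ r)).2)
  calc ∑ r ∈ range n, U (u r) (S u r) ≤ _ := h4
    _ ≤ _ := h3
    _ ≤ 4 * H * (4 * ∑ r ∈ range n, U (u r) (σ r)) :=
        mul_le_mul_of_nonneg_left h5 (by linarith)
    _ = 16 * H * ∑ r ∈ range n, U (u r) (σ r) := by ring

end Pool.Agent.H42V
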