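import Pool.Agent.Helper49.UM.Cnt

/-!
Definitions for the online algorithm on the leaves of an ultrametric.

`u : ℕ → V` are the requests (sites), `s : ℕ → V` the sites that serve them, `ℓ : ℕ → ℕ` the levels
at which they are placed, `x : ℕ → Bool` tells whether the placement is an expulsion.
-/

namespace Pool.Agent.H42V

open Finset Pool.Agent.Helper8.OT Pool.Agent.Helper49.UM

/-- The number of `r < t` with the property `p`. -/
noncomputable def cnt (p : ℕ → Prop) (t : ℕ) : ℕ := open Classical in ((range t).filter p).card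

theorem cnt_zero (p : ℕ → Prop) : cnt p 0 = 0 := by
  unfold cnt
  simp

theorem cnt_succ (p : ℕ → Prop) (t : ℕ) [Decidable (p t)] :
    cnt p (t + 1) = cnt p t + if p t then 1 else 0 := by
  classical
  unfold cnt
  rw [range_add_one, filter_insert]
  split_ifs with h
  · rw [card_insert_of_notMem (by simp)]
  · rw [add_zero]

theorem cnt_le_succ (p : ℕ → Prop) (t : ℕ) : cnt p t ≤ cnt p (t + 1) := by
  classical
  rw [cnt_succ]
  exact Nat.le_add_right _ _

theorem cnt_mono (p : ℕ → Prop) {t t' : ℕ} (h : t ≤ t') : cnt p t ≤ cnt p t' := by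
  classical
  unfold cnt
  exact card_le_card (filter_subset_filter _ (range_mono h))

theorem cnt_imp {p q : ℕ → Prop} {t : ℕ} (h : ∀ r < t, p r → q r) : cnt p t ≤ cnt q t := by
  classical
  unfold cnt
  refine card_le_card fun r hr => ?_
  rw [mem_filter] at hr ⊢
  exact ⟨hr.1, h r (mem_range.1 hr.1) hr.2⟩

theorem cnt_congr {p q : ℕ → Prop} {t : ℕ} (h : ∀ r < t, (p r ↔ q r)) : cnt p t = cnt q t :=
  le_antisymm (cnt_imp fun r hr => (h r hr).1) (cnt_imp fun r hr => (h r hr).2)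

theorem cnt_eq_zero {p : ℕ → Prop} {t : ℕ} (h : ∀ r < t, ¬ p r) : cnt p t = 0 := by
  classical
  unfold cnt
  rw [card_eq_zero, filter_eq_empty_iff]
  exact fun r hr => h r (mem_range.1 hr)

/-- Splitting by a second property. -/
theorem cnt_split (p q : ℕ → Prop) (t : ℕ) :
    cnt p t = cnt (fun r => p r ∧ q r) t + cnt (fun r => p r ∧ ¬ q r) t := by
  classical
  induction t with
  | zero => simp [cnt_zero]
  | succ t ih =>
    rw [cnt_succ, cnt_succ, cnt_succ, ih]
    by_cases h1 : p t <;> by_cases h2 : q t <;> simp [h1, h2] <;> omega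

/-- The count over a set of sites is the sum over its sites. -/
theorem cnt_mem {V : Type} [DecidableEq V] (p : ℕ → Prop) (f : ℕ → V) (v : Finset V) (t : ℕ) :
    cnt (fun r => p r ∧ f r ∈ v) t = ∑ i ∈ v, cnt (fun r => p r ∧ f r = i) t := by
  classical
  induction t with
  | zero => simp [cnt_zero]
  | succ t ih =>
    simp only [cnt_succ, sum_add_distrib, ih]
    congr 1
    by_cases h : p t
    · simp [h]
    · simp [h]

variable {V : Type} [Fintype V] [DecidableEq V]

/-- All the sites of the cluster of level `g` of `i` are full at time `t`. -/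
def Fu (lev : V → V → ℕ) (c : V → ℕ) (s : ℕ → V) (t g : ℕ) (i : V) : Prop :=
  ∀ j ∈ cl lev g i, c j ≤ ld s t {j}

/-- The excess of the children of the cluster `P` of level `L`. -/
def XP (lev : V → V → ℕ) (a : V → ℕ) (u : ℕ → V) (L : ℕ) (P : Finset V) (t : ℕ) : ℕ :=
  ∑ v ∈ children lev (L - 1) P, (ld u t v - ∑ i ∈ v, a i)

/-- The weight of the site `i` in the cluster `P` of level `L`. -/
def Wt (lev : V → V → ℕ) (a c : V → ℕ) (N : ℕ) (u : ℕ → V) (L : ℕ) (P : Finset V) (t : ℕ)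
    (i : V) : ℕ :=
  8 * (N + 1) * (c i - a i) + min (a i) (XP lev a u L P t)

/-- A legal step: the site, the level and the flag for the request number `t`. -/
def Lg (lev : V → V → ℕ) (a c : V → ℕ) (N K : ℕ) (u s : ℕ → V) (ℓ : ℕ → ℕ) (x : ℕ → Bool)
    (t : ℕ) (v : V × ℕ × Bool) : Prop :=
  ld s t {v.1} < c v.1 ∧
  ((v.1 = u t ∧ v.2.1 = 0 ∧ v.2.2 = false) ∨
    ∃ g, Fu lev c s t g (u t) ∧ ¬ Fu lev c s t (g + 1) (u t) ∧ g < v.2.1 ∧ v.2.1 ≤ K ∧
      v.1 ∈ cl lev v.2.1 (u t) ∧
      ((v.2.2 = false ∧ v.2.1 = g + 1 ∧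
          ∑ i ∈ cl lev g (u t), a i ≤ ld u t (cl lev g (u t))) ∨
        (v.2.2 = true ∧
          cnt (fun r => (x r = true ∧ ℓ r = v.2.1) ∧ u r ∈ cl lev g (u t)) t + 1 ≤
            cnt (fun r => ℓ r = v.2.1 ∧ s r ∈ cl lev g (u t)) t ∧
          ∀ l, g < l → l ≤ v.2.1 →
            cnt (fun r => (x r = true ∧ l ≤ ℓ r) ∧ u r ∈ cl lev g (u t)) t +
                ∑ i ∈ cl lev g (u t), (c i - a i) + 1 ≤
              cnt (fun r => l ≤ ℓ r ∧ s r ∈ cl lev g (u t)) t)) ∧
      ∀ i ∈ cl lev v.2.1 (u t), ld s t {i} < c i →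
        cnt (fun r => ℓ r = v.2.1 ∧ s r = v.1) t *
            Wt lev a c N u v.2.1 (cl lev v.2.1 (u t)) t i ≤
          cnt (fun r => ℓ r = v.2.1 ∧ s r = i) t *
            Wt lev a c N u v.2.1 (cl lev v.2.1 (u t)) t v.1)

end Pool.Agent.H42V
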