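import Pool.Agent.H42V.Up
import Pool.Agent.H42U.Flow
import Pool.Agent.H42T.Count
import Pool.Agent.Helper49.UM.Star

/-!
The recursion over the levels.
-/

namespace Pool.Agent.H42V

open Finset Pool.Agent.Helper8.OT Pool.Agent.Helper49.UM

variable {V : Type} [Fintype V] [DecidableEq V]

theorem ld_mono (s : ℕ → V) (v : Finset V) {t t' : ℕ} (h : t ≤ t') :
    ld s t v ≤ ld s t' v := by
  induction t', h using Nat.le_induction with
  | base => exact le_rfl
  | succ k _ ih => exact ih.trans (ld_le_succ s k v)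

theorem lg_le {n : ℕ} {s : ℕ → V} {c : V → ℕ} (h : ∀ r < n, ld s r {s r} < c (s r)) :
    ∀ t ≤ n, ∀ i, ld s t {i} ≤ c i := by
  intro t
  induction t with
  | zero =>
    intro _ i
    simp
  | succ t ih =>
    intro ht i
    rw [ld_succ]
    by_cases hi : s t ∈ ({i} : Finset V)
    · rw [if_pos hi]
      rw [mem_singleton] at hi
      subst hi
      exact h t (by omega)
    · rw [if_neg hi, add_zero]
      exact ih (by omega) i

theorem cnt_le_ld (p : ℕ → Prop) (s : ℕ → V) (t : ℕ) (i : V) :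
    cnt (fun r => p r ∧ s r = i) t ≤ ld s t {i} := by
  classical
  induction t with
  | zero =>
    rw [cnt_zero]
    exact Nat.zero_le _
  | succ t ih =>
    rw [cnt_succ, ld_succ]
    by_cases h : p t ∧ s t = i
    · rw [if_pos h, if_pos (mem_singleton.2 h.2)]
      omega
    · rw [if_neg h]
      omega

theorem fu_succ {lev : V → V → ℕ} {c : V → ℕ} {s : ℕ → V} (t g : ℕ) (i : V)
    (h : Fu lev c s t g i) : Fu lev c s (t + 1) g i :=
  fun j hj => (h j hj).trans (ld_le_succ s t {j})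

theorem fu_anti {lev : V → V → ℕ} {c : V → ℕ} {s : ℕ → V} (t g g' : ℕ) (i : V) (hg : g ≤ g')
    (h : Fu lev c s t g' i) : Fu lev c s t g i :=
  fun j hj => h j (cl_mono hg i hj)

theorem fu_cl {lev : V → V → ℕ} (hlev : IsUlt lev) {c : V → ℕ} {s : ℕ → V} (t g : ℕ) (i j : V)
    (hj : j ∈ cl lev g i) (h : Fu lev c s t g i) : Fu lev c s t g j := by
  intro l hl
  rw [cl_eq hlev hj] at hl
  exact h l hl

variable {lev : V → V → ℕ} {a c : V → ℕ} {N K : ℕ} {u s : ℕ → V} {ℓ : ℕ → ℕ} {x : ℕ → Bool}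
  {n : ℕ}

theorem lg_mem (hlev : IsUlt lev) {t : ℕ} {v : V × ℕ × Bool}
    (h : Lg lev a c N K u s ℓ x t v) : v.1 ∈ cl lev v.2.1 (u t) := by
  rcases h.2 with ⟨h1, h2, -⟩ | ⟨g, -, -, -, -, h5, -⟩
  · rw [h1, h2]
    exact self_mem_cl hlev 0 (u t)
  · exact h5

theorem lg_le_K {t : ℕ} {v : V × ℕ × Bool} (h : Lg lev a c N K u s ℓ x t v) : v.2.1 ≤ K := by
  rcases h.2 with ⟨-, h2, -⟩ | ⟨g, -, -, -, h4, -⟩
  · rw [h2]
    exact Nat.zero_le K
  · exact h4

theorem created_le (hlev : IsUlt lev)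
    (h : ∀ r < n, Lg lev a c N K u s ℓ x r (s r, ℓ r, x r)) {k : ℕ} {v : Finset V}
    (hv : v ∈ clusters lev k) :
    ∀ t ≤ n, cnt (fun r => (¬ x r = true ∧ ℓ r = k + 1) ∧ u r ∈ v) t ≤
      ld u t v - ∑ i ∈ v, a i := by
  classical
  intro t
  induction t with
  | zero =>
    intro _
    rw [cnt_zero]
    exact Nat.zero_le _
  | succ t ih =>
    intro ht
    have ih' := ih (by omega)
    rw [cnt_succ]
    by_cases he : (¬ x t = true ∧ ℓ t = k + 1) ∧ u t ∈ v
    · rw [if_pos he, ld_succ, if_pos he.2]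
      have key : ∑ i ∈ v, a i ≤ ld u t v := by
        rcases (h t (by omega)).2 with ⟨-, h2, -⟩ | ⟨g, -, -, -, -, -, h6, -⟩
        · have h3 : ℓ t = 0 := h2
          have h4 := he.1.2
          omega
        · rcases h6 with ⟨-, h7, h8⟩ | ⟨h7, -⟩
          · have h9 : ℓ t = g + 1 := h7
            have hg : g = k := by
              have := he.1.2
              omega
            subst hg
            have hvc : v = cl lev g (u t) := mem_clusters hlev hv he.2
            rw [hvc]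
            exact h8
          · exact absurd h7 he.1.1
      omega
    · rw [if_neg he, add_zero]
      have := ld_le_succ u t v
      omega

/-- The counts of the events of one site. -/
private theorem cnt_one (p : ℕ → Prop) (u : ℕ → V) (t : ℕ) (i : V) (hp : p t) :
    (cnt (fun r => p r ∧ u r = i) (t + 1) : ℝ) =
      cnt (fun r => p r ∧ u r = i) t + if i = u t then 1 else 0 := by
  classical
  rw [cnt_succ]
  by_cases h : i = u t
  · rw [if_pos h, if_pos ⟨hp, h.symm⟩]
    push_cast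
    ring
  · rw [if_neg h, if_neg fun h' => h h'.2.symm]
    push_cast
    ring

private theorem cnt_none (p : ℕ → Prop) (u : ℕ → V) (t : ℕ) (i : V) (hp : ¬ p t) :
    (cnt (fun r => p r ∧ u r = i) (t + 1) : ℝ) = cnt (fun r => p r ∧ u r = i) t := by
  classical
  rw [cnt_succ, if_neg fun h' => hp h'.1, add_zero]

private theorem cnt_mem' (p : ℕ → Prop) (f : ℕ → V) (v : Finset V) (t : ℕ) :
    ∑ i ∈ v, (cnt (fun r => p r ∧ f r = i) t : ℝ) = cnt (fun r => p r ∧ f r ∈ v) t := by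
  rw [cnt_mem, Nat.cast_sum]

theorem expelled_le (hlev : IsUlt lev)
    (h : ∀ r < n, Lg lev a c N K u s ℓ x r (s r, ℓ r, x r)) (k t : ℕ) (ht : t ≤ n) (i : V) :
    ∑ j ∈ cl lev (k + 1) i, (cnt (fun r => (x r = true ∧ ℓ r = k + 1) ∧ u r = j) t : ℝ) ≤
      ∑ j ∈ cl lev (k + 1) i,
        if c j ≤ ld s t {j} then (cnt (fun r => ℓ r = k + 1 ∧ s r = j) t : ℝ) else 0 := by
  refine up hlev (k + 1) n
    (fun t i => (cnt (fun r => (x r = true ∧ ℓ r = k + 1) ∧ u r = i) t : ℝ))
    (fun t i => if c i ≤ ld s t {i} then (cnt (fun r => ℓ r = k + 1 ∧ s r = i) t : ℝ) else 0)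
    (fun t g i => Fu lev c s t g i) fu_succ fu_anti (fu_cl hlev) ?_ ?_ ?_ ?_ t ht (k + 1) le_rfl i
    (Or.inl rfl)
  · intro t i
    split_ifs with h1 h2 h2
    · exact_mod_cast cnt_le_succ _ t
    · exact absurd (h1.trans (ld_le_succ s t {i})) h2
    · exact Nat.cast_nonneg _
    · exact le_rfl
  · intro i
    rw [cnt_zero]
    simp
  · intro i
    split_ifs
    · exact Nat.cast_nonneg _
    · exact le_rfl
  · intro t ht
    by_cases he : x t = true ∧ ℓ t = k + 1
    · right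
      rcases (h t ht).2 with ⟨-, h2, -⟩ | ⟨g, hF, hnF, h3, -, -, h6, -⟩
      · have h3 : ℓ t = 0 := h2
        have h4 := he.2
        omega
      · rcases h6 with ⟨h7, -⟩ | ⟨-, h7, -⟩
        · have h8 : x t = false := h7
          rw [he.1] at h8
          exact absurd h8 (by simp)
        · refine ⟨u t, g, ?_, hF, hnF, fun i => cnt_one _ u t i he, ?_⟩
          · have h8 : g < ℓ t := h3
            rw [he.2] at h8
            exact h8
          · rw [cnt_mem']
            have h8 : ∑ i ∈ cl lev g (u t), (if c i ≤ ld s t {i} then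
                (cnt (fun r => ℓ r = k + 1 ∧ s r = i) t : ℝ) else 0) =
                cnt (fun r => ℓ r = k + 1 ∧ s r ∈ cl lev g (u t)) t := by
              rw [← cnt_mem']
              exact sum_congr rfl fun i hi => if_pos (hF i hi)
            rw [h8]
            have h9 : cnt (fun r => (x r = true ∧ ℓ r = ℓ t) ∧ u r ∈ cl lev g (u t)) t + 1 ≤
                cnt (fun r => ℓ r = ℓ t ∧ s r ∈ cl lev g (u t)) t := h7
            rw [he.2] at h9
            exact_mod_cast h9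
    · left
      exact fun i => cnt_none _ u t i he

theorem XP_mono (lev : V → V → ℕ) (a : V → ℕ) (u : ℕ → V) (L : ℕ) (P : Finset V) :
    Monotone (XP lev a u L P) := by
  apply monotone_nat_of_le_succ
  intro t
  unfold XP
  refine sum_le_sum fun v _ => ?_
  exact Nat.sub_le_sub_right (ld_le_succ u t v) _

/-- The creations of a cluster. -/
theorem created_sum (hlev : IsUlt lev)
    (h : ∀ r < n, Lg lev a c N K u s ℓ x r (s r, ℓ r, x r)) {k : ℕ} {P : Finset V}
    (hP : P ∈ clusters lev (k + 1)) (t : ℕ) (ht : t ≤ n) :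
    cnt (fun r => (¬ x r = true ∧ ℓ r = k + 1) ∧ u r ∈ P) t ≤ XP lev a u (k + 1) P t := by
  have h1 : (cnt (fun r => (¬ x r = true ∧ ℓ r = k + 1) ∧ u r ∈ P) t : ℝ) =
      ∑ v ∈ children lev k P, (cnt (fun r => (¬ x r = true ∧ ℓ r = k + 1) ∧ u r ∈ v) t : ℝ) := by
    rw [← cnt_mem', ← sum_children hlev hP]
    exact sum_congr rfl fun v _ => cnt_mem' _ u v t
  have h2 : cnt (fun r => (¬ x r = true ∧ ℓ r = k + 1) ∧ u r ∈ P) t =
      ∑ v ∈ children lev k P, cnt (fun r => (¬ x r = true ∧ ℓ r = k + 1) ∧ u r ∈ v) t := by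
    exact_mod_cast h1
  rw [h2]
  unfold XP
  rw [Nat.add_sub_cancel]
  exact sum_le_sum fun v hv => created_le hlev h (children_subset hv) t ht

/-- The placements of a cluster on the sites that are not full. -/
theorem open_le (hlev : IsUlt lev)
    (h : ∀ r < n, Lg lev a c N K u s ℓ x r (s r, ℓ r, x r)) {k : ℕ} {P : Finset V}
    (hP : P ∈ clusters lev (k + 1)) (t : ℕ) (ht : t ≤ n) (Y : Finset V) (hY : Y ⊆ P)
    (hYo : ∀ i ∈ Y, ld s t {i} < c i) :
    ∑ i ∈ Y, cnt (fun r => ℓ r = k + 1 ∧ s r = i) t ≤ XP lev a u (k + 1) P t := by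
  have h1 : (cnt (fun r => ℓ r = k + 1 ∧ s r ∈ P) t : ℝ) =
      cnt (fun r => (x r = true ∧ ℓ r = k + 1) ∧ u r ∈ P) t +
        cnt (fun r => (¬ x r = true ∧ ℓ r = k + 1) ∧ u r ∈ P) t := by
    have h2 : cnt (fun r => ℓ r = k + 1 ∧ s r ∈ P) t = cnt (fun r => ℓ r = k + 1 ∧ u r ∈ P) t := by
      refine cnt_congr fun r hr => ?_
      refine and_congr_right fun hl => ?_
      have h3 := lg_mem hlev (h r (hr.trans_le ht))
      have h4 : s r ∈ cl lev (ℓ r) (u r) := h3
      rw [hl] at h4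
      constructor
      · intro hs
        have h5 : P = cl lev (k + 1) (s r) := mem_clusters hlev hP hs
        rw [h5, cl_eq hlev h4]
        exact self_mem_cl hlev _ _
      · intro hu
        have h5 : P = cl lev (k + 1) (u r) := mem_clusters hlev hP hu
        rw [h5]
        exact h4
    rw [h2, cnt_split _ (fun r => x r = true)]
    push_cast
    congr 2
    · exact cnt_congr fun r _ => by tauto
    · exact cnt_congr fun r _ => by tauto
  obtain ⟨i0, rfl⟩ : ∃ i, P = cl lev (k + 1) i := by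
    unfold clusters at hP
    rw [mem_image] at hP
    obtain ⟨i, -, hi⟩ := hP
    exact ⟨i, hi.symm⟩
  have h3 := expelled_le hlev h k t ht i0
  rw [cnt_mem'] at h3
  have h4 := created_sum hlev h hP t ht
  have h4' : (cnt (fun r => (¬ x r = true ∧ ℓ r = k + 1) ∧ u r ∈ cl lev (k + 1) i0) t : ℝ) ≤
      XP lev a u (k + 1) (cl lev (k + 1) i0) t := by exact_mod_cast h4
  have h5 : ∑ i ∈ Y, (cnt (fun r => ℓ r = k + 1 ∧ s r = i) t : ℝ) +
      ∑ j ∈ cl lev (k + 1) i0,
        (if c j ≤ ld s t {j} then (cnt (fun r => ℓ r = k + 1 ∧ s r = j) t : ℝ) else 0) ≤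
      cnt (fun r => ℓ r = k + 1 ∧ s r ∈ cl lev (k + 1) i0) t := by
    rw [← cnt_mem']
    have h6 : ∑ i ∈ Y, (cnt (fun r => ℓ r = k + 1 ∧ s r = i) t : ℝ) =
        ∑ j ∈ cl lev (k + 1) i0,
          (if j ∈ Y then (cnt (fun r => ℓ r = k + 1 ∧ s r = j) t : ℝ) else 0) := by
      rw [← sum_filter]
      congr 1
      ext j
      rw [mem_filter]
      exact ⟨fun h => ⟨hY h, h⟩, fun h => h.2⟩
    rw [h6, ← sum_add_distrib]
    refine sum_le_sum fun j _ => ?_
    have h0 : (0 : ℝ) ≤ cnt (fun r => ℓ r = k + 1 ∧ s r = j) t := Nat.cast_nonneg _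
    by_cases hj : j ∈ Y
    · rw [if_pos hj, if_neg (not_le.2 (hYo j hj)), add_zero]
    · rw [if_neg hj, zero_add]
      split_ifs
      · exact le_rfl
      · exact h0
  have h7 : ∑ i ∈ Y, (cnt (fun r => ℓ r = k + 1 ∧ s r = i) t : ℝ) ≤
      XP lev a u (k + 1) (cl lev (k + 1) i0) t := by linarith
  exact_mod_cast h7

/-- The excess of the placements of one level. -/
theorem flow_level (hlev : IsUlt lev) (hac : ∀ i, a i < c i)
    (hN : ∀ S : Finset V, (∀ j ∈ S, 2 * ∑ i ∈ S, ((c i : ℝ) - a i) ≤ a j) → S.card ≤ N)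
    (h : ∀ r < n, Lg lev a c N K u s ℓ x r (s r, ℓ r, x r)) {k : ℕ} {P : Finset V}
    (hP : P ∈ clusters lev (k + 1)) :
    ∑ i ∈ P, max 0 ((cnt (fun r => ℓ r = k + 1 ∧ s r = i) n : ℝ) - (c i - a i : ℕ)) ≤
      (26 + 8 * Real.log (8 * (N + 1))) * XP lev a u (k + 1) P n := by
  classical
  refine H42U.flow_bound P a (fun i => c i - a i) (fun i _ => ?_) N (fun Y _ y hy => ?_) n
    (fun t i => cnt (fun r => ℓ r = k + 1 ∧ s r = i) t) (XP lev a u (k + 1) P)
    (XP_mono lev a u (k + 1) P) (fun t i => ld s t {i} < c i)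
    (fun t i => ℓ t = k + 1 ∧ s t = i) (fun t t' i htt' h' => ?_) (fun t ht i _ hrc => ?_)
    (fun i => cnt_zero _) (fun t _ i _ => ?_)
    (fun t ht Y hY hYo => open_le hlev h hP t ht Y hY hYo) (fun t ht i0 hi0 hrc i hi hio => ?_)
    (fun i _ => ?_)
  · have := hac i
    omega
  · have h1 := Pool.Agent.H42T.sum_min_le (α := fun i => (a i : ℝ))
      (e := fun i => (c i : ℝ) - a i)
      (fun i => by have : (a i : ℝ) < c i := by exact_mod_cast hac i
                   linarith)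
      (fun i => by
        rcases Nat.eq_zero_or_pos (a i) with h | h
        · left; simp [h]
        · right; exact_mod_cast h) hN Y y hy
    have h2 : ∑ i ∈ Y, ((c i - a i : ℕ) : ℝ) = ∑ i ∈ Y, ((c i : ℝ) - a i) :=
      sum_congr rfl fun i _ => Nat.cast_sub (hac i).le
    rw [h2]
    exact h1
  · exact lt_of_le_of_lt (ld_mono s {i} htt') h'
  · have h1 : ld s t {s t} < c (s t) := (h t ht).1
    rw [hrc.2] at h1
    exact h1
  · by_cases he : ℓ t = k + 1 ∧ s t = i
    · left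
      refine ⟨he, ?_⟩
      rw [cnt_succ, if_pos he]
    · right
      rw [cnt_succ, if_neg he, add_zero]
  · rcases (h t ht).2 with ⟨-, h2, -⟩ | ⟨g, -, -, -, -, h5, -, h7⟩
    · have h3 : ℓ t = 0 := h2
      have h4 := hrc.1
      omega
    · have h5' : s t ∈ cl lev (ℓ t) (u t) := h5
      rw [hrc.1, hrc.2] at h5'
      have hPi : P = cl lev (k + 1) (u t) := by
        rw [mem_clusters hlev hP hi0, cl_eq hlev h5']
      have h7' : ∀ i ∈ cl lev (ℓ t) (u t), ld s t {i} < c i →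
        cnt (fun r => ℓ r = ℓ t ∧ s r = s t) t *
            Wt lev a c N u (ℓ t) (cl lev (ℓ t) (u t)) t i ≤
          cnt (fun r => ℓ r = ℓ t ∧ s r = i) t *
            Wt lev a c N u (ℓ t) (cl lev (ℓ t) (u t)) t (s t) := h7
      rw [hrc.1, hrc.2, ← hPi] at h7'
      exact h7' i hi hio
  · have h1 : cnt (fun r => ℓ r = k + 1 ∧ s r = i) n ≤ ld s n {i} := cnt_le_ld _ s n i
    have h2 := lg_le (fun r hr => (h r hr).1) n le_rfl i
    have := hac i
    omega

/-- The expulsions to the level `k + 1`. -/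
theorem expelled_level (hlev : IsUlt lev) (hac : ∀ i, a i < c i)
    (h : ∀ r < n, Lg lev a c N K u s ℓ x r (s r, ℓ r, x r)) (k : ℕ) (i0 : V) :
    (cnt (fun r => (x r = true ∧ ℓ r = k + 1) ∧ u r ∈ cl lev (k + 1) i0) n : ℝ) ≤
      ∑ i ∈ cl lev (k + 1) i0,
        max 0 ((cnt (fun r => k + 1 ≤ ℓ r ∧ s r = i) n : ℝ) - (c i - a i : ℕ)) := by
  classical
  have key := up hlev (k + 1) n
    (fun t i => (cnt (fun r => ((x r = true ∧ k + 1 ≤ ℓ r) ∧ ¬ Fu lev c s r (k + 1) (u r)) ∧
      u r = i) t : ℝ))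
    (fun t i => max 0 ((cnt (fun r => k + 1 ≤ ℓ r ∧ s r = i) t : ℝ) - (c i - a i : ℕ)))
    (fun t g i => Fu lev c s t g i) fu_succ fu_anti (fu_cl hlev)
    (by
      intro t i
      refine max_le_max le_rfl (sub_le_sub_right ?_ _)
      exact_mod_cast cnt_le_succ _ t)
    (by
      intro i
      rw [cnt_zero]
      simp)
    (fun i => le_max_left _ _)
    (by
      intro t ht
      by_cases he : (x t = true ∧ k + 1 ≤ ℓ t) ∧ ¬ Fu lev c s t (k + 1) (u t)
      · right
        rcases (h t ht).2 with ⟨-, h2, -⟩ | ⟨g, hF, hnF, h3, -, -, h6, -⟩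
        · have h3 : ℓ t = 0 := h2
          have h4 := he.1.2
          omega
        · have hg : g < k + 1 := by
            by_contra hcon
            exact he.2 (fu_anti t (k + 1) g (u t) (not_lt.1 hcon) hF)
          rcases h6 with ⟨h7, -⟩ | ⟨-, -, h7⟩
          · have h8 : x t = false := h7
            rw [he.1.1] at h8
            exact absurd h8 (by simp)
          · refine ⟨u t, g, hg, hF, hnF, fun i => cnt_one _ u t i he, ?_⟩
            have h8 := h7 (k + 1) hg he.1.2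
            rw [cnt_mem']
            have h9 : cnt (fun r => ((x r = true ∧ k + 1 ≤ ℓ r) ∧
                ¬ Fu lev c s r (k + 1) (u r)) ∧ u r ∈ cl lev g (u t)) t ≤
                cnt (fun r => (x r = true ∧ k + 1 ≤ ℓ r) ∧ u r ∈ cl lev g (u t)) t :=
              cnt_imp fun r _ hr => ⟨hr.1.1, hr.2⟩
            have h10 : (cnt (fun r => ((x r = true ∧ k + 1 ≤ ℓ r) ∧
                ¬ Fu lev c s r (k + 1) (u r)) ∧ u r ∈ cl lev g (u t)) t : ℝ) +
                ∑ i ∈ cl lev g (u t), ((c i - a i : ℕ) : ℝ) + 1 ≤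
                cnt (fun r => k + 1 ≤ ℓ r ∧ s r ∈ cl lev g (u t)) t := by
              rw [← Nat.cast_sum]
              have h11 := (Nat.add_le_add_right (Nat.add_le_add_right h9 _) 1).trans h8
              exact_mod_cast h11
            have h12 : ∑ i ∈ cl lev g (u t), (cnt (fun r => k + 1 ≤ ℓ r ∧ s r = i) t : ℝ) -
                ∑ i ∈ cl lev g (u t), ((c i - a i : ℕ) : ℝ) ≤
                ∑ i ∈ cl lev g (u t), max 0
                  ((cnt (fun r => k + 1 ≤ ℓ r ∧ s r = i) t : ℝ) - (c i - a i : ℕ)) := by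
              rw [← sum_sub_distrib]
              exact sum_le_sum fun i _ => le_max_right _ _
            rw [cnt_mem'] at h12
            linarith
      · left
        exact fun i => cnt_none _ u t i he)
    n le_rfl (k + 1) le_rfl i0 (Or.inl rfl)
  refine le_trans ?_ key
  rw [cnt_mem']
  have h1 : cnt (fun r => (x r = true ∧ ℓ r = k + 1) ∧ u r ∈ cl lev (k + 1) i0) n ≤
      cnt (fun r => ((x r = true ∧ k + 1 ≤ ℓ r) ∧ ¬ Fu lev c s r (k + 1) (u r)) ∧
        u r ∈ cl lev (k + 1) i0) n := by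
    refine cnt_imp fun r hr hr' => ⟨⟨⟨hr'.1.1, hr'.1.2.ge⟩, ?_⟩, hr'.2⟩
    rcases (h r hr).2 with ⟨-, h2, -⟩ | ⟨g, hF, hnF, h3, -⟩
    · have h3 : ℓ r = 0 := h2
      have h4 := hr'.1.2
      omega
    · intro hcon
      have h4 : g < ℓ r := h3
      rw [hr'.1.2] at h4
      exact hnF (fu_anti r (g + 1) (k + 1) (u r) h4 hcon)
  exact_mod_cast h1

private theorem cast_trunc (y z : ℕ) : ((y - z : ℕ) : ℝ) = max 0 ((y : ℝ) - z) := by
  rcases le_total z y with h | h
  · have : (z : ℝ) ≤ y := by exact_mod_cast h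
    rw [Nat.cast_sub h, max_eq_right (by linarith)]
  · have : (y : ℝ) ≤ z := by exact_mod_cast h
    rw [Nat.sub_eq_zero_of_le h, Nat.cast_zero, max_eq_left (by linarith)]

theorem level_le (hlev : IsUlt lev) (hac : ∀ i, a i < c i)
    (hN : ∀ S : Finset V, (∀ j ∈ S, 2 * ∑ i ∈ S, ((c i : ℝ) - a i) ≤ a j) → S.card ≤ N)
    (h : ∀ r < n, Lg lev a c N K u s ℓ x r (s r, ℓ r, x r)) (k : ℕ) :
    (cnt (fun r => ℓ r = k + 1) n : ℝ) ≤
      (27 + 8 * Real.log (8 * (N + 1))) *
        ∑ v ∈ clusters lev k, max 0 ((ld u n v : ℝ) - ∑ i ∈ v, (a i : ℝ)) +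
        cnt (fun r => k + 2 ≤ ℓ r) n := by
  classical
  have hall : ∀ (p : ℕ → Prop) (f : ℕ → V), (cnt p n : ℝ) =
      ∑ P ∈ clusters lev (k + 1), (cnt (fun r => p r ∧ f r ∈ P) n : ℝ) := by
    intro p f
    have h1 : cnt p n = cnt (fun r => p r ∧ f r ∈ (univ : Finset V)) n :=
      cnt_congr fun r _ => by simp
    rw [h1, ← cnt_mem', ← sum_clusters_sum hlev (k + 1)]
    exact sum_congr rfl fun P _ => cnt_mem' p f P n
  have hP : ∀ P ∈ clusters lev (k + 1), (cnt (fun r => ℓ r = k + 1 ∧ u r ∈ P) n : ℝ) ≤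
      (27 + 8 * Real.log (8 * (N + 1))) *
        ∑ v ∈ children lev k P, max 0 ((ld u n v : ℝ) - ∑ i ∈ v, (a i : ℝ)) +
        cnt (fun r => k + 2 ≤ ℓ r ∧ s r ∈ P) n := by
    intro P hP
    have hX : (XP lev a u (k + 1) P n : ℝ) =
        ∑ v ∈ children lev k P, max 0 ((ld u n v : ℝ) - ∑ i ∈ v, (a i : ℝ)) := by
      unfold XP
      rw [Nat.cast_sum, Nat.add_sub_cancel]
      refine sum_congr rfl fun v _ => ?_
      rw [cast_trunc, Nat.cast_sum]
    have h1 : (cnt (fun r => ℓ r = k + 1 ∧ u r ∈ P) n : ℝ) =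
        cnt (fun r => (x r = true ∧ ℓ r = k + 1) ∧ u r ∈ P) n +
          cnt (fun r => (¬ x r = true ∧ ℓ r = k + 1) ∧ u r ∈ P) n := by
      rw [cnt_split _ (fun r => x r = true)]
      push_cast
      congr 2
      · exact cnt_congr fun r _ => by tauto
      · exact cnt_congr fun r _ => by tauto
    have h2 := created_sum hlev h hP n le_rfl
    have h2' : (cnt (fun r => (¬ x r = true ∧ ℓ r = k + 1) ∧ u r ∈ P) n : ℝ) ≤
        XP lev a u (k + 1) P n := by exact_mod_cast h2
    have h3 := flow_level hlev hac hN h hP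
    have h4 : (cnt (fun r => (x r = true ∧ ℓ r = k + 1) ∧ u r ∈ P) n : ℝ) ≤
        ∑ i ∈ P, max 0 ((cnt (fun r => k + 1 ≤ ℓ r ∧ s r = i) n : ℝ) - (c i - a i : ℕ)) := by
      have hP' := hP
      unfold clusters at hP'
      rw [mem_image] at hP'
      obtain ⟨i0, -, rfl⟩ := hP'
      exact expelled_level hlev hac h k i0
    have h5 : ∑ i ∈ P, max 0 ((cnt (fun r => k + 1 ≤ ℓ r ∧ s r = i) n : ℝ) - (c i - a i : ℕ)) ≤
        ∑ i ∈ P, max 0 ((cnt (fun r => ℓ r = k + 1 ∧ s r = i) n : ℝ) - (c i - a i : ℕ)) +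
          cnt (fun r => k + 2 ≤ ℓ r ∧ s r ∈ P) n := by
      rw [← cnt_mem', ← sum_add_distrib]
      refine sum_le_sum fun i _ => ?_
      have h6 : cnt (fun r => k + 1 ≤ ℓ r ∧ s r = i) n =
          cnt (fun r => ℓ r = k + 1 ∧ s r = i) n + cnt (fun r => k + 2 ≤ ℓ r ∧ s r = i) n := by
        rw [cnt_split _ (fun r => ℓ r = k + 1)]
        congr 1
        · exact cnt_congr fun r _ => ⟨fun h => ⟨h.2, h.1.2⟩, fun h => ⟨⟨h.1.ge, h.2⟩, h.1⟩⟩
        · refine cnt_congr fun r _ => ⟨fun h => ⟨?_, h.1.2⟩, fun h => ⟨⟨?_, h.2⟩, ?_⟩⟩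
          · have h7 := h.1.1
            have h8 := h.2
            omega
          · have := h.1
            omega
          · have := h.1
            omega
      rw [h6]
      push_cast
      have h7 : (0 : ℝ) ≤ cnt (fun r => k + 2 ≤ ℓ r ∧ s r = i) n := Nat.cast_nonneg _
      refine max_le ?_ ?_
      · have := le_max_left 0 ((cnt (fun r => ℓ r = k + 1 ∧ s r = i) n : ℝ) - (c i - a i : ℕ))
        linarith
      · have := le_max_right 0 ((cnt (fun r => ℓ r = k + 1 ∧ s r = i) n : ℝ) - (c i - a i : ℕ))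
        linarith
    rw [← hX]
    rw [h1]
    linarith
  rw [hall (fun r => ℓ r = k + 1) u, hall (fun r => k + 2 ≤ ℓ r) s, ← sum_clusters hlev k,
    mul_sum, ← sum_add_distrib]
  exact sum_le_sum hP

end Pool.Agent.H42V
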