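import Pool.Agent.H42V.AlgV
import Pool.Agent.H42U.MainU

/-!
Bounds on the classes of spaces near an ultrametric, for all capacity vectors.
-/

namespace Pool.Agent.H42V

open Finset Pool.Agent.Helper84.Transport Pool.Agent.Helper49.UM Pool.Agent.H42T
open scoped ENNReal

/-- The upper bound on a class of spaces near an ultrametric on which there is an algorithm with
ratio `Q` for the sites. -/
private theorem upper_aux {m : ℕ} (hm : 0 < m) (a c : Fin m → ℕ) (D σ : ℝ) (Q : ℝ)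
    (hQ0 : 0 ≤ Q) (hD : 1 ≤ D) (S₀ : (ℕ → Fin m) → ℕ → Fin m)
    (hS₀ : (∀ u u' t, (∀ r ≤ t, u r = u' r) → S₀ u t = S₀ u' t) ∧
      ∀ u n, n ≤ ∑ i, a i → ∀ i, ((range n).filter (fun r => S₀ u r = i)).card ≤ c i)
    (hAlg : ∀ U : Fin m → Fin m → ℝ, (∀ i, U i i = 0) → (∀ i j, i ≠ j → 0 < U i j) →
      (∀ i j, U i j = U j i) → (∀ i j k, U i k ≤ max (U i j) (U j k)) →
      (∀ i j k l, 0 < U i j → U i j < U k l → σ * U i j ≤ U k l) →
      ∃ S : (ℕ → Fin m) → ℕ → Fin m, (∀ u u' t, (∀ r ≤ t, u r = u' r) → S u t = S u' t) ∧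
      ∀ u n, n ≤ ∑ i, a i →
        (∀ i, ((range n).filter (fun r => S u r = i)).card ≤ c i) ∧
        ∀ o : ℕ → Fin m, (∀ i, ((range n).filter (fun r => o r = i)).card ≤ a i) →
          ∑ r ∈ range n, U (u r) (S u r) ≤ Q * ∑ r ∈ range n, U (u r) (o r)) :
    RstarOn (NearUlt D σ) a c ≤ ENNReal.ofReal (D * (1 + Q)) := by
  classical
  have : NeZero m := ⟨by omega⟩
  refine upper_general a c _ _ (by positivity) ?_
  intro N inst s
  by_cases hN : NearUlt D σ N inst ∧ Function.Injective s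
  · obtain ⟨⟨U, hU1, hU2, hU3, hU4⟩, hs⟩ := hN
    have hU0 : ∀ x, U x x = 0 := by
      intro x
      have h1 := hU3 x x
      rw [dist_self, mul_zero] at h1
      linarith [h1.1, h1.2]
    have hUn : ∀ x y, 0 ≤ U x y := fun x y => dist_nonneg.trans (hU3 x y).1
    obtain ⟨S, hS1, hS2⟩ := hAlg (fun i j => U (s i) (s j)) (fun i => hU0 _)
      (fun i j hij => lt_of_lt_of_le (dist_pos.2 (hs.ne hij)) (hU3 _ _).1)
      (fun i j => hU1 _ _) (fun i j k => hU2 _ _ _) (fun i j k l => hU4 _ _ _ _)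
    have hnear : ∀ x : N, ∃ i, ∀ j, U (s i) x ≤ U (s j) x := fun x =>
      Finite.exists_min fun i => U (s i) x
    choose near hnear using hnear
    refine ⟨near, S, hS1, fun u n hn i => (hS2 u n hn).1 i, ?_⟩
    intro _ _ r n hn o ho
    have h1 := (hS2 (fun k => near (r k)) n hn).2 o ho
    set u : ℕ → Fin m := fun k => near (r k) with hu
    have h2 : ∑ t ∈ range n, U (s (u t)) (s (o t)) ≤ ∑ t ∈ range n, U (s (o t)) (r t) := by
      apply Finset.sum_le_sum
      intro t _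
      have h3 := hU2 (s (u t)) (r t) (s (o t))
      have h4 := hnear (r t) (o t)
      rw [hU1 (r t) (s (o t))] at h3
      exact h3.trans (max_le h4 le_rfl)
    have h3 : ∑ t ∈ range n, U (s (S u t)) (r t) ≤
        ∑ t ∈ range n, U (s (u t)) (s (S u t)) + ∑ t ∈ range n, U (s (o t)) (r t) := by
      rw [← Finset.sum_add_distrib]
      apply Finset.sum_le_sum
      intro t _
      have h4 := hU2 (s (S u t)) (s (u t)) (r t)
      have h5 := hnear (r t) (o t)
      have h6 := hUn (s (u t)) (s (S u t))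
      have h7 := hUn (s (o t)) (r t)
      rw [hU1 (s (S u t)) (s (u t))] at h4
      refine h4.trans (max_le ?_ ?_)
      · linarith
      · simp only [hu] at h5 h6 ⊢
        linarith
    have h4 : ∑ t ∈ range n, U (s (o t)) (r t) ≤ D * ∑ t ∈ range n, dist (s (o t)) (r t) := by
      rw [Finset.mul_sum]
      exact Finset.sum_le_sum fun t _ => (hU3 _ _).2
    have h5 : ∑ t ∈ range n, dist (s (S u t)) (r t) ≤ ∑ t ∈ range n, U (s (S u t)) (r t) :=
      Finset.sum_le_sum fun t _ => (hU3 _ _).1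
    have h6 := mul_le_mul_of_nonneg_left h2 hQ0
    calc ∑ j ∈ range n, dist (s (S u j)) (r j)
        ≤ (1 + Q) * ∑ t ∈ range n, U (s (o t)) (r t) := by linarith
      _ ≤ (1 + Q) * (D * ∑ t ∈ range n, dist (s (o t)) (r t)) :=
          mul_le_mul_of_nonneg_left h4 (by linarith)
      _ = D * (1 + Q) * ∑ j ∈ range n, dist (s (o j)) (r j) := by ring
  · refine ⟨fun _ => 0, S₀, hS₀.1, hS₀.2, ?_⟩
    intro h1 h2
    exact absurd ⟨h1, h2⟩ hN

private theorem real_of_tight {m : ℕ} {a c : Fin m → ℕ} (hac : ∀ i, a i < c i)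
    (S : Finset (Fin m)) : Tight a c S ↔ ∀ j ∈ S, 2 * ∑ i ∈ S, ((c i : ℝ) - a i) ≤ a j := by
  have h1 : ∑ i ∈ S, ((c i : ℝ) - a i) = ((∑ i ∈ S, (c i - a i) : ℕ) : ℝ) := by
    push_cast
    refine Finset.sum_congr rfl fun i _ => ?_
    rw [Nat.cast_sub (hac i).le]
  unfold Tight
  rw [h1]
  refine forall_congr' fun j => imp_congr_right fun _ => ?_
  constructor
  · intro h
    exact_mod_cast h
  · intro h
    exact_mod_cast h

private theorem hNt {m : ℕ} {a c : Fin m → ℕ} (hac : ∀ i, a i < c i) :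
    ∀ S : Finset (Fin m), (∀ j ∈ S, 2 * ∑ i ∈ S, ((c i : ℝ) - a i) ≤ a j) →
      S.card ≤ tightNumber a c := fun S hS =>
  card_le_tightNumber S ((real_of_tight hac S).2 hS)

private theorem lgN (N : ℕ) : 0 ≤ Real.log ((N : ℝ) + 1) := Real.log_nonneg (by
  have : (0 : ℝ) ≤ N := Nat.cast_nonneg N
  linarith)

/-- The upper bound for spaces near an ultrametric. -/
theorem upper_ult {m : ℕ} (hm : 0 < m) (a c : Fin m → ℕ) (hac : ∀ i, a i < c i) (D σ : ℝ)
    (hD : 1 ≤ D) :
    RstarOn (NearUlt D σ) a c ≤ ENNReal.ofReal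
      (D * (705 + 128 * Real.log ((tightNumber a c : ℝ) + 1))) := by
  have : NeZero m := ⟨by omega⟩
  have hρ : ∀ i, (c i : ℝ) ≤ (∑ j, (c j : ℝ)) * ((c i : ℝ) - a i) := by
    intro i
    have h1 : (a i : ℝ) + 1 ≤ c i := by exact_mod_cast hac i
    have h2 : (c i : ℝ) ≤ ∑ j, (c j : ℝ) :=
      Finset.single_le_sum (f := fun j => (c j : ℝ)) (fun j _ => Nat.cast_nonneg _)
        (Finset.mem_univ i)
    have h3 : (0 : ℝ) ≤ c i := Nat.cast_nonneg _
    nlinarith
  obtain ⟨S₀, hS1, hS2⟩ := alg1 a c hac _ hρ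
  have hl := lgN (tightNumber a c)
  have h1 := upper_aux hm a c D σ (16 * (44 + 8 * Real.log ((tightNumber a c : ℝ) + 1)))
    (by positivity) hD S₀ ⟨hS1, fun u n hn i => (hS2 u n hn).1 i⟩ (by
      intro U h0 hpos hsymm hult _
      exact Pool.Agent.H42V.alg U h0 hpos hsymm hult a c hac (tightNumber a c) (hNt hac))
  refine h1.trans (ENNReal.ofReal_le_ofReal (le_of_eq ?_))
  ring

end Pool.Agent.H42V
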