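import Pool.Agent.H42V.Transfer

/-!
The trivial lower bound.
-/

namespace Pool.Agent.H42V

open Finset Pool.Agent.Helper84.Transport Pool.Agent.Helper49.UM Pool.Agent.H42T
open scoped ENNReal

open Classical in
/-- The discrete distance. -/
private noncomputable def dd {N : Type} (x y : N) : ℝ := if x = y then 0 else 1

private theorem dd_self {N : Type} (x : N) : dd x x = 0 := if_pos rfl

private theorem dd_ne {N : Type} {x y : N} (h : x ≠ y) : dd x y = 1 := if_neg h

private theorem dd_nonneg {N : Type} (x y : N) : 0 ≤ dd x y := by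
  unfold dd
  split_ifs <;> norm_num

private theorem dd_le {N : Type} (x y : N) : dd x y ≤ 1 := by
  unfold dd
  split_ifs <;> norm_num

private theorem dd_comm {N : Type} (x y : N) : dd x y = dd y x := by
  by_cases h : x = y
  · rw [h]
  · rw [dd_ne h, dd_ne fun h' => h h'.symm]

private theorem dd_ult {N : Type} (x y z : N) : dd x z ≤ max (dd x y) (dd y z) := by
  by_cases h : x = y
  · rw [h]
    exact le_max_right _ _
  · rw [dd_ne h]
    exact le_max_of_le_left (dd_le x z)

/-- The discrete metric. -/
private noncomputable def discMetric (N : Type) : MetricSpace N where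
  dist := dd
  dist_self := dd_self
  dist_comm := dd_comm
  dist_triangle x y z := (dd_ult x y z).trans
    (max_le (le_add_of_nonneg_right (dd_nonneg _ _)) (le_add_of_nonneg_left (dd_nonneg _ _)))
  eq_of_dist_eq_zero := by
    intro x y h
    by_contra hne
    have h1 : dd x y = 0 := h
    rw [dd_ne hne] at h1
    exact one_ne_zero h1

theorem one_le {m : ℕ} (a c : Fin m → ℕ) (i : Fin m) (hi : 0 < a i) (D σ : ℝ) (hD : 1 ≤ D) :
    1 ≤ RstarOn (NearUlt D σ) a c := by
  classical
  unfold RstarOn
  refine le_iInf fun A => ?_
  let inst : MetricSpace (Option (Fin m)) := discMetric _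
  have hd : ∀ x y : Option (Fin m), dist x y = dd x y := fun x y => rfl
  have hcl : NearUlt D σ (Option (Fin m)) inst := by
    refine ⟨dd, dd_comm, dd_ult, fun x y => ⟨le_rfl, ?_⟩, ?_⟩
    · rw [hd]
      exact le_mul_of_one_le_left (dd_nonneg x y) hD
    · intro x y x' y' h1 h2
      exfalso
      by_cases h : x = y
      · rw [h, dd_self] at h1
        exact lt_irrefl _ h1
      · rw [dd_ne h] at h2
        exact absurd (dd_le x' y') (not_le.2 h2)
  have hn : 1 ≤ ∑ i, a i :=
    (Nat.succ_le_of_lt hi).trans (Finset.single_le_sum (fun _ _ => Nat.zero_le _) (mem_univ i))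
  refine le_iSup_of_le (Option (Fin m)) (le_iSup_of_le inst (le_iSup_of_le hcl
    (le_iSup_of_le some (le_iSup_of_le (Option.some_injective _)
      (le_iSup_of_le (fun _ => none) (le_iSup_of_le 1 (le_iSup_of_le hn ?_)))))))
  have he : ∀ j : Fin m, edist (some j : Option (Fin m)) none = 1 := by
    intro j
    have h1 : dist (some j : Option (Fin m)) none = 1 := by
      rw [hd, dd_ne (by simp)]
    rw [edist_dist, h1, ENNReal.ofReal_one]
  have hcost : A.cost some (fun _ => (none : Option (Fin m))) 1 = 1 := by
    unfold OnlineAlgorithm.cost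
    rw [Finset.sum_range_one]
    exact he _
  have hopt : opt a some (fun _ => (none : Option (Fin m))) 1 ≤ 1 := by
    refine iInf_le_of_le (fun _ => i) (iInf_le_of_le ?_ ?_)
    · intro i'
      by_cases h : i = i'
      · subst h
        have h1 : {j | j < 1 ∧ i = i} = {0} := by
          ext j
          simp
        rw [h1, Set.ncard_singleton]
        exact hi
      · have h1 : {j : ℕ | j < 1 ∧ i = i'} = ∅ := by
          ext j
          simp [h]
        rw [h1, Set.ncard_empty]
        exact Nat.zero_le _
    · rw [Finset.sum_range_one]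
      exact (he _).le
  rw [hcost, one_div]
  exact ENNReal.one_le_inv.2 hopt

end Pool.Agent.H42V
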