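import Pool.Agent.H42V.Lev

/-!
There is always a legal step.
-/

namespace Pool.Agent.H42V

open Finset Pool.Agent.Helper8.OT Pool.Agent.Helper49.UM

variable {V : Type} [Fintype V] [DecidableEq V]

theorem Wt_pos (lev : V → V → ℕ) {a c : V → ℕ} (hac : ∀ i, a i < c i) (N : ℕ) (u : ℕ → V)
    (L : ℕ) (P : Finset V) (t : ℕ) (i : V) : 0 < Wt lev a c N u L P t i := by
  unfold Wt
  have h1 : 0 < c i - a i := Nat.sub_pos_of_lt (hac i)
  have h2 : 0 < 8 * (N + 1) * (c i - a i) := by positivity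
  omega

/-- The choice of the site of the least ratio. -/
private theorem pick {P : Finset V} (opn : V → Prop) (hne : ∃ j ∈ P, opn j) (f w : V → ℕ)
    (hw : ∀ i, 0 < w i) :
    ∃ j ∈ P, opn j ∧ ∀ i ∈ P, opn i → f j * w i ≤ f i * w j := by
  classical
  obtain ⟨j1, hj1, hj1'⟩ := hne
  have hne' : (P.filter opn).Nonempty := ⟨j1, mem_filter.2 ⟨hj1, hj1'⟩⟩
  obtain ⟨j, hj, hmin⟩ := exists_min_image _ (fun j => (f j : ℚ) / (w j : ℚ)) hne'
  rw [mem_filter] at hj
  refine ⟨j, hj.1, hj.2, fun i hi hio => ?_⟩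
  have h5 := hmin i (mem_filter.2 ⟨hi, hio⟩)
  have h6 : ∀ i, (0 : ℚ) < (w i : ℚ) := fun i => by exact_mod_cast hw i
  rw [div_le_div_iff₀ (h6 j) (h6 i)] at h5
  exact_mod_cast h5

theorem exists_lg {lev : V → V → ℕ} (hlev : IsUlt lev) (K : ℕ) (hK : ∀ i j, lev i j ≤ K)
    {a c : V → ℕ} (hac : ∀ i, a i < c i) (N : ℕ) (u s : ℕ → V) (ℓ : ℕ → ℕ) (x : ℕ → Bool) (t : ℕ)
    (hcap : ∀ i, ld s t {i} ≤ c i) (hpl : ∀ r < t, s r ∈ cl lev (ℓ r) (u r) ∧ ℓ r ≤ K)
    (ht : t < ∑ i, c i) : ∃ v, Lg lev a c N K u s ℓ x t v := by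
  classical
  by_cases hfree : ld s t {u t} < c (u t)
  · exact ⟨(u t, 0, false), hfree, Or.inl ⟨rfl, rfl, rfl⟩⟩
  have hF0 : Fu lev c s t 0 (u t) := by
    intro j hj
    rw [cl_zero hlev, mem_singleton] at hj
    rw [hj]
    exact not_lt.1 hfree
  have hFK : ¬ Fu lev c s t K (u t) := by
    intro hF
    have h1 : ∑ i, c i ≤ ∑ i, ld s t {i} := by
      refine sum_le_sum fun i _ => hF i ?_
      rw [mem_cl]
      exact hK _ _
    rw [← ld_sum] at h1
    have h2 : ld s t univ = t := by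
      unfold ld
      simp
    omega
  have hex : ∃ g, ¬ Fu lev c s t g (u t) := ⟨K, hFK⟩
  obtain ⟨g, hg⟩ : ∃ g, Nat.find hex = g + 1 := by
    refine Nat.exists_eq_succ_of_ne_zero fun h0 => ?_
    have := Nat.find_spec hex
    rw [h0] at this
    exact this hF0
  have hnF : ¬ Fu lev c s t (g + 1) (u t) := by
    have := Nat.find_spec hex
    rw [hg] at this
    exact this
  have hF : Fu lev c s t g (u t) := by
    by_contra hcon
    have := Nat.find_min' hex hcon
    omega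
  have hgK : g + 1 ≤ K := by
    have := Nat.find_min' hex hFK
    omega
  have hopen : ∀ L, g < L → ∃ j ∈ cl lev L (u t), ld s t {j} < c j := by
    intro L hL
    have h1 : ∃ j ∈ cl lev (g + 1) (u t), ld s t {j} < c j := by
      by_contra hcon
      push Not at hcon
      exact hnF hcon
    obtain ⟨j, hj, hj'⟩ := h1
    exact ⟨j, cl_mono hL (u t) hj, hj'⟩
  have hchoice : ∀ L, g < L → L ≤ K → ∀ b : Bool,
      ((b = false ∧ L = g + 1 ∧ ∑ i ∈ cl lev g (u t), a i ≤ ld u t (cl lev g (u t))) ∨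
        (b = true ∧
          cnt (fun r => (x r = true ∧ ℓ r = L) ∧ u r ∈ cl lev g (u t)) t + 1 ≤
            cnt (fun r => ℓ r = L ∧ s r ∈ cl lev g (u t)) t ∧
          ∀ l, g < l → l ≤ L →
            cnt (fun r => (x r = true ∧ l ≤ ℓ r) ∧ u r ∈ cl lev g (u t)) t +
                ∑ i ∈ cl lev g (u t), (c i - a i) + 1 ≤
              cnt (fun r => l ≤ ℓ r ∧ s r ∈ cl lev g (u t)) t)) →
      ∃ v, Lg lev a c N K u s ℓ x t v := by
    intro L hL hLK b hb
    obtain ⟨j, hj, hj', hmin⟩ := pick (fun j => ld s t {j} < c j) (hopen L hL)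
      (fun i => cnt (fun r => ℓ r = L ∧ s r = i) t)
      (fun i => Wt lev a c N u L (cl lev L (u t)) t i) (fun i => Wt_pos lev hac N u L _ t i)
    exact ⟨(j, L, b), hj', Or.inr ⟨g, hF, hnF, hL, hLK, hj, hb, hmin⟩⟩
  by_cases hA : ∑ i ∈ cl lev g (u t), a i ≤ ld u t (cl lev g (u t))
  · exact hchoice (g + 1) (Nat.lt_succ_self g) hgK false (Or.inl ⟨rfl, rfl, hA⟩)
  · push Not at hA
    set Q := cl lev g (u t) with hQ
    -- the balance of the cluster
    have hI : ∀ t' ≤ t, ld s t' Q + cnt (fun r => (x r = true ∧ g + 1 ≤ ℓ r) ∧ u r ∈ Q) t' ≤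
        ld u t' Q + cnt (fun r => g + 1 ≤ ℓ r ∧ s r ∈ Q) t' := by
      intro t'
      induction t' with
      | zero =>
        intro _
        rw [cnt_zero, cnt_zero]
        simp
      | succ t' ih =>
        intro ht'
        have ih' := ih (by omega)
        rw [ld_succ, ld_succ, cnt_succ, cnt_succ]
        have hin : ¬ g + 1 ≤ ℓ t' → s t' ∈ Q → u t' ∈ Q := by
          intro h1 h2
          have h3 := (hpl t' (by omega)).1
          have h4 : s t' ∈ cl lev g (u t') := cl_mono (by omega) (u t') h3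
          have h5 : cl lev g (s t') = cl lev g (u t') := cl_eq hlev h4
          have h6 : cl lev g (s t') = Q := cl_eq hlev h2
          rw [← h6, h5]
          exact self_mem_cl hlev g (u t')
        have e1 : (if s t' ∈ Q then 1 else 0) +
            (if (x t' = true ∧ g + 1 ≤ ℓ t') ∧ u t' ∈ Q then 1 else 0) ≤
            (if u t' ∈ Q then 1 else 0) + (if g + 1 ≤ ℓ t' ∧ s t' ∈ Q then 1 else 0) := by
          split_ifs <;> first | omega | (exfalso; tauto)
        omega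
    have hfull : ∑ i ∈ Q, c i ≤ ld s t Q := by
      rw [ld_sum]
      exact sum_le_sum fun i hi => hF i hi
    have hsum : ∑ i ∈ Q, (c i - a i) + ∑ i ∈ Q, a i = ∑ i ∈ Q, c i := by
      rw [← sum_add_distrib]
      exact sum_congr rfl fun i _ => by have := hac i; omega
    have hI' := hI t le_rfl
    have hg1 : cnt (fun r => (x r = true ∧ g + 1 ≤ ℓ r) ∧ u r ∈ Q) t +
        ∑ i ∈ Q, (c i - a i) + 1 ≤ cnt (fun r => g + 1 ≤ ℓ r ∧ s r ∈ Q) t := by omega
    have hexl : ∃ l, g < l ∧ cnt (fun r => l ≤ ℓ r ∧ s r ∈ Q) t <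
        cnt (fun r => (x r = true ∧ l ≤ ℓ r) ∧ u r ∈ Q) t + ∑ i ∈ Q, (c i - a i) + 1 := by
      refine ⟨K + 1, by omega, ?_⟩
      rw [cnt_eq_zero (p := fun r => K + 1 ≤ ℓ r ∧ s r ∈ Q)
        (fun r hr h => by have := (hpl r hr).2; have := h.1; omega)]
      omega
    have hfs := Nat.find_spec hexl
    have hfm : ∀ l, g < l → l < Nat.find hexl →
        cnt (fun r => (x r = true ∧ l ≤ ℓ r) ∧ u r ∈ Q) t + ∑ i ∈ Q, (c i - a i) + 1 ≤
          cnt (fun r => l ≤ ℓ r ∧ s r ∈ Q) t := by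
      intro l hl hl'
      have := Nat.find_min hexl hl'
      by_contra hcon
      exact this ⟨hl, not_le.1 hcon⟩
    have hle : Nat.find hexl ≤ K + 1 := by
      refine Nat.find_min' hexl ⟨by omega, ?_⟩
      rw [cnt_eq_zero (p := fun r => K + 1 ≤ ℓ r ∧ s r ∈ Q)
        (fun r hr h => by have := (hpl r hr).2; have := h.1; omega)]
      omega
    have hgt : g + 1 < Nat.find hexl := by
      rcases Nat.lt_or_ge (g + 1) (Nat.find hexl) with h | h
      · exact h
      · have h1 : Nat.find hexl = g + 1 := by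
          have := hfs.1
          omega
        have h2 := hfs.2
        rw [h1] at h2
        omega
    obtain ⟨L, hL⟩ : ∃ L, Nat.find hexl = L + 1 := ⟨Nat.find hexl - 1, by omega⟩
    rw [hL] at hfs hfm hle hgt
    refine hchoice L (by omega) (by omega) true (Or.inr ⟨rfl, ?_, fun l hl hl' =>
      hfm l hl (by omega)⟩)
    have h1 := hfm L (by omega) (by omega)
    have h2 := hfs.2
    have h3 : cnt (fun r => (x r = true ∧ L ≤ ℓ r) ∧ u r ∈ Q) t =
        cnt (fun r => (x r = true ∧ ℓ r = L) ∧ u r ∈ Q) t +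
          cnt (fun r => (x r = true ∧ L + 1 ≤ ℓ r) ∧ u r ∈ Q) t := by
      rw [cnt_split _ (fun r => ℓ r = L)]
      congr 1
      · exact cnt_congr fun r _ => ⟨fun h => ⟨⟨h.1.1.1, h.2⟩, h.1.2⟩,
          fun h => ⟨⟨⟨h.1.1, h.1.2.ge⟩, h.2⟩, h.1.2⟩⟩
      · refine cnt_congr fun r _ => ⟨fun h => ⟨⟨h.1.1.1, ?_⟩, h.1.2⟩,
          fun h => ⟨⟨⟨h.1.1, ?_⟩, h.2⟩, ?_⟩⟩
        · have h5 := h.1.1.2
          have h6 := h.2
          omega
        · have := h.1.2
          omega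
        · have := h.1.2
          omega
    have h4 : cnt (fun r => L ≤ ℓ r ∧ s r ∈ Q) t =
        cnt (fun r => ℓ r = L ∧ s r ∈ Q) t + cnt (fun r => L + 1 ≤ ℓ r ∧ s r ∈ Q) t := by
      rw [cnt_split _ (fun r => ℓ r = L)]
      congr 1
      · exact cnt_congr fun r _ => ⟨fun h => ⟨h.2, h.1.2⟩, fun h => ⟨⟨h.1.ge, h.2⟩, h.1⟩⟩
      · refine cnt_congr fun r _ => ⟨fun h => ⟨?_, h.1.2⟩, fun h => ⟨⟨?_, h.2⟩, ?_⟩⟩
        · have h5 := h.1.1
          have h6 := h.2
          omega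
        · have := h.1
          omega
        · have := h.1
          omega
    omega

end Pool.Agent.H42V
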