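import Pool.Agent.H42V.MainV

/-!
The lower bound for all distortions.
-/

namespace Pool.Agent.H42V

open Finset Pool.Agent.Helper84.Transport Pool.Agent.Helper49.UM Pool.Agent.H42T
open scoped ENNReal

theorem transfer {m : ℕ} (a c : Fin m → ℕ) (C C' : ∀ N : Type, MetricSpace N → Prop) (κ : ℝ)
    (hκ : 0 < κ)
    (h : ∀ (N : Type) (inst : MetricSpace N), C N inst → ∃ inst' : MetricSpace N, C' N inst' ∧
      ∀ x y, inst'.dist x y ≤ inst.dist x y ∧ inst.dist x y ≤ κ * inst'.dist x y) :
    RstarOn C a c ≤ ENNReal.ofReal κ * RstarOn C' a c := by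
  classical
  unfold RstarOn
  have hκ' : ENNReal.ofReal κ ≠ 0 := by
    rw [Ne, ENNReal.ofReal_eq_zero, not_le]
    exact hκ
  rw [ENNReal.mul_iInf_of_ne hκ' ENNReal.ofReal_ne_top]
  refine le_iInf fun A => ?_
  let tr : ∀ N : Type, MetricSpace N → MetricSpace N := fun N inst =>
    if hC : C N inst then (h N inst hC).choose else inst
  let A' : OnlineAlgorithm m a c :=
    { assign := fun N inst s j r => @OnlineAlgorithm.assign m a c A N (tr N inst) s j r
      feasible := fun N inst s r n hn i =>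
        @OnlineAlgorithm.feasible m a c A N (tr N inst) s r n hn i }
  refine iInf_le_of_le A' ?_
  refine iSup_le fun N => iSup_le fun inst => iSup_le fun hC => iSup_le fun s => iSup_le fun hs =>
    iSup_le fun r => iSup_le fun n => iSup_le fun hn => ?_
  obtain ⟨hC', hd⟩ := (h N inst hC).choose_spec
  have htr : tr N inst = (h N inst hC).choose := dif_pos hC
  have hcost : @OnlineAlgorithm.cost m a c A' N inst s r n =
      ∑ j ∈ range n, @edist N inst.toPseudoMetricSpace.toPseudoEMetricSpace.toEDist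
        (s (@OnlineAlgorithm.assign m a c A N (tr N inst) s j (fun k => r k))) (r j) := rfl
  rw [htr] at hcost
  generalize (h N inst hC).choose = inst' at *
  have e1 : ∀ x y, @edist N inst.toPseudoMetricSpace.toPseudoEMetricSpace.toEDist x y =
      ENNReal.ofReal (inst.dist x y) := fun x y => @edist_dist N inst.toPseudoMetricSpace x y
  have e2 : ∀ x y, @edist N inst'.toPseudoMetricSpace.toPseudoEMetricSpace.toEDist x y =
      ENNReal.ofReal (inst'.dist x y) := fun x y => @edist_dist N inst'.toPseudoMetricSpace x y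
  have h1 : @OnlineAlgorithm.cost m a c A' N inst s r n ≤
      ENNReal.ofReal κ * @OnlineAlgorithm.cost m a c A N inst' s r n := by
    rw [hcost]
    unfold OnlineAlgorithm.cost
    rw [mul_sum]
    refine sum_le_sum fun j _ => ?_
    rw [e1, e2, ← ENNReal.ofReal_mul hκ.le]
    exact ENNReal.ofReal_le_ofReal (hd _ _).2
  have h2 : @opt m a N inst' s r n ≤ @opt m a N inst s r n := by
    unfold opt
    refine iInf_mono fun f => iInf_mono fun hf => sum_le_sum fun j _ => ?_
    rw [e1, e2]
    exact ENNReal.ofReal_le_ofReal (hd _ _).1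
  calc @OnlineAlgorithm.cost m a c A' N inst s r n / @opt m a N inst s r n
      ≤ ENNReal.ofReal κ * @OnlineAlgorithm.cost m a c A N inst' s r n / @opt m a N inst' s r n :=
        ENNReal.div_le_div h1 h2
    _ = ENNReal.ofReal κ * (@OnlineAlgorithm.cost m a c A N inst' s r n /
          @opt m a N inst' s r n) := mul_div_assoc _ _ _
    _ ≤ _ := by
      refine mul_le_mul_right ?_ _
      exact le_iSup_of_le N (le_iSup_of_le inst' (le_iSup_of_le hC' (le_iSup_of_le s
        (le_iSup_of_le hs (le_iSup_of_le r (le_iSup_of_le n (le_iSup_of_le hn le_rfl)))))))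

/-- The ultrametric space with the distance `U / D`. -/
private noncomputable def ultMetric {N : Type} (inst : MetricSpace N) (D : ℝ) (hD : 1 ≤ D)
    (U : N → N → ℝ) (hU1 : ∀ x y, U x y = U y x)
    (hU2 : ∀ x y z, U x z ≤ max (U x y) (U y z))
    (hU3 : ∀ x y, inst.dist x y ≤ U x y ∧ U x y ≤ D * inst.dist x y) : MetricSpace N where
  dist x y := U x y / D
  dist_self x := by
    have h1 := hU3 x x
    have h2 : inst.dist x x = 0 := @dist_self N inst.toPseudoMetricSpace x
    rw [h2, mul_zero] at h1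
    have h3 : U x x = 0 := le_antisymm h1.2 h1.1
    change U x x / D = 0
    rw [h3, zero_div]
  dist_comm x y := by
    change U x y / D = U y x / D
    rw [hU1]
  dist_triangle x y z := by
    change U x z / D ≤ U x y / D + U y z / D
    have hD0 : (0 : ℝ) < D := by linarith
    have h1 : ∀ x y, 0 ≤ U x y := fun x y =>
      (@dist_nonneg N inst.toPseudoMetricSpace x y).trans (hU3 x y).1
    rw [← add_div]
    apply div_le_div_of_nonneg_right _ hD0.le
    exact (hU2 x y z).trans (max_le (by linarith [h1 y z]) (by linarith [h1 x y]))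
  eq_of_dist_eq_zero := by
    intro x y h
    have hD0 : (0 : ℝ) < D := by linarith
    have h1 : U x y / D = 0 := h
    have h2 : U x y = 0 := by
      rcases div_eq_zero_iff.1 h1 with h | h
      · exact h
      · linarith
    have h3 := (hU3 x y).1
    rw [h2] at h3
    have h4 : inst.dist x y = 0 := le_antisymm h3 (@dist_nonneg N inst.toPseudoMetricSpace x y)
    exact @eq_of_dist_eq_zero N inst x y h4

theorem nearUlt_one {m : ℕ} (a c : Fin m → ℕ) (D σ : ℝ) (hD : 1 ≤ D) :
    RstarOn (NearUlt D σ) a c ≤ ENNReal.ofReal D * RstarOn (NearUlt 1 σ) a c := by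
  refine transfer a c _ _ D (by linarith) ?_
  intro N inst hC
  obtain ⟨U, hU1, hU2, hU3, hU4⟩ := hC
  have hD0 : (0 : ℝ) < D := by linarith
  refine ⟨ultMetric inst D hD U hU1 hU2 hU3, ⟨fun x y => U x y / D, ?_, ?_, ?_, ?_⟩, ?_⟩
  · intro x y
    dsimp only
    rw [hU1]
  · intro x y z
    change U x z / D ≤ max (U x y / D) (U y z / D)
    rw [max_div_div_right hD0.le]
    exact div_le_div_of_nonneg_right (hU2 x y z) hD0.le
  · intro x y
    exact ⟨le_rfl, (one_mul _).ge⟩
  · intro x y x' y' h1 h2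
    dsimp only at h1 h2 ⊢
    have h3 : 0 < U x y := by
      by_contra hcon
      exact absurd h1 (not_lt.2 (div_nonpos_of_nonpos_of_nonneg (not_lt.1 hcon) hD0.le))
    have h4 : U x y < U x' y' := (div_lt_div_iff_of_pos_right hD0).1 h2
    have h5 := hU4 x y x' y' h3 h4
    calc σ * (U x y / D) = σ * U x y / D := by ring
      _ ≤ U x' y' / D := div_le_div_of_nonneg_right h5 hD0.le
  · intro x y
    have h1 : (ultMetric inst D hD U hU1 hU2 hU3).dist x y = U x y / D := rfl
    rw [h1]
    refine ⟨?_, ?_⟩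
    · rw [div_le_iff₀ hD0, mul_comm]
      exact (hU3 x y).2
    · rw [mul_div_cancel₀ _ hD0.ne']
      exact (hU3 x y).1

theorem nearUlt_mono {m : ℕ} (a c : Fin m → ℕ) {D D' σ : ℝ} (hD : D ≤ D') :
    RstarOn (NearUlt D σ) a c ≤ RstarOn (NearUlt D' σ) a c := by
  unfold RstarOn
  refine iInf_mono fun A => iSup_mono fun N => iSup_mono fun inst => ?_
  refine iSup_le fun hC => ?_
  obtain ⟨U, hU1, hU2, hU3, hU4⟩ := hC
  refine le_iSup_of_le ⟨U, hU1, hU2, fun x y => ⟨(hU3 x y).1, (hU3 x y).2.trans ?_⟩, hU4⟩ le_rfl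
  exact mul_le_mul_of_nonneg_right hD dist_nonneg

/-- The lower bound for all distortions. -/
theorem lower_all {m : ℕ} (a c : Fin m → ℕ) (hac : ∀ i, a i < c i) (D σ : ℝ) (hD : 1 ≤ D) :
    ENNReal.ofReal ((harmonic (tightNumber a c) : ℝ) / 2) ≤ RstarOn (NearUlt D σ) a c := by
  have h1 := H42U.lower_ult a c hac 2 σ le_rfl
  have h2 := nearUlt_one a c 2 σ (by norm_num)
  have h3 : ENNReal.ofReal (harmonic (tightNumber a c) : ℝ) ≤
      ENNReal.ofReal 2 * RstarOn (NearUlt D σ) a c :=
    h1.trans (h2.trans (mul_le_mul_right (nearUlt_mono a c hD) _))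
  have h4 : ENNReal.ofReal ((harmonic (tightNumber a c) : ℝ) / 2) =
      ENNReal.ofReal (harmonic (tightNumber a c) : ℝ) / ENNReal.ofReal 2 :=
    ENNReal.ofReal_div_of_pos (by norm_num)
  rw [h4]
  exact ENNReal.div_le_of_le_mul' h3

end Pool.Agent.H42V
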