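import Pool.Agent.H42V.Defs

/-!
An inequality for clusters that is transported from the full clusters to the larger ones.
-/

namespace Pool.Agent.H42V

open Finset Pool.Agent.Helper8.OT Pool.Agent.Helper49.UM

variable {V : Type} [Fintype V] [DecidableEq V]

theorem up {lev : V → V → ℕ} (hlev : IsUlt lev) (L n : ℕ) (φ ρ : ℕ → V → ℝ)
    (F : ℕ → ℕ → V → Prop) (hFm : ∀ t g i, F t g i → F (t + 1) g i)
    (hFs : ∀ t g g' i, g ≤ g' → F t g' i → F t g i)
    (hFc : ∀ t g i j, j ∈ cl lev g i → F t g i → F t g j)
    (hρ : ∀ t i, ρ t i ≤ ρ (t + 1) i)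
    (h0 : ∀ i, φ 0 i = 0) (hρ0 : ∀ i, 0 ≤ ρ 0 i)
    (hev : ∀ t < n, (∀ i, φ (t + 1) i = φ t i) ∨
      ∃ w g, g < L ∧ F t g w ∧ ¬ F t (g + 1) w ∧
        (∀ i, φ (t + 1) i = φ t i + if i = w then 1 else 0) ∧
        ∑ i ∈ cl lev g w, φ t i + 1 ≤ ∑ i ∈ cl lev g w, ρ t i) :
    ∀ t ≤ n, ∀ g ≤ L, ∀ i, (g = L ∨ ¬ F t (g + 1) i) →
      ∑ j ∈ cl lev g i, φ t j ≤ ∑ j ∈ cl lev g i, ρ t j := by
  intro t
  induction t with
  | zero =>
    intro _ g _ i _
    rw [Finset.sum_congr rfl fun j _ => h0 j, Finset.sum_const_zero]
    exact Finset.sum_nonneg fun j _ => hρ0 j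
  | succ t ih =>
    intro htn g hg i hgi
    have htn' : t ≤ n := by omega
    have hgi' : g = L ∨ ¬ F t (g + 1) i := hgi.imp id fun h h' => h (hFm t _ _ h')
    have hIH := ih htn' g hg i hgi'
    have hρs : ∀ v : Finset V, ∑ j ∈ v, ρ t j ≤ ∑ j ∈ v, ρ (t + 1) j := fun v =>
      Finset.sum_le_sum fun j _ => hρ t j
    rcases hev t (by omega) with h1 | ⟨w, g0, hg0, hF, hnF, hφ, hbase⟩
    · rw [Finset.sum_congr rfl fun j _ => h1 j]
      exact hIH.trans (hρs _)
    · by_cases hw : w ∈ cl lev g i
      · -- the claim for all the clusters of `w`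
        have hle : g0 ≤ g := by
          by_contra hlt
          push Not at hlt
          rcases hgi' with h2 | h2
          · omega
          · apply h2
            have h3 : F t (g + 1) w := hFs t (g + 1) g0 w (by omega) hF
            have h4 : i ∈ cl lev (g + 1) w := by
              rw [mem_cl, hlev.symm]
              exact (mem_cl.1 hw).trans (Nat.le_succ g)
            exact hFc t (g + 1) w i h4 h3
        have hsum1 : ∀ v : Finset V, w ∉ v → ∑ j ∈ v, φ (t + 1) j = ∑ j ∈ v, φ t j := by
          intro v hv
          refine Finset.sum_congr rfl fun j hj => ?_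
          have hjw : j ≠ w := fun h => hv (by rw [← h]; exact hj)
          rw [hφ j, if_neg hjw, add_zero]
        have key : ∀ h, g0 ≤ h → h ≤ g →
            ∑ j ∈ cl lev h w, φ (t + 1) j ≤ ∑ j ∈ cl lev h w, ρ t j := by
          intro h hh
          induction h, hh using Nat.le_induction with
          | base =>
            intro _
            have h5 : ∑ j ∈ cl lev g0 w, φ (t + 1) j = ∑ j ∈ cl lev g0 w, φ t j + 1 := by
              rw [Finset.sum_congr rfl fun j _ => hφ j, Finset.sum_add_distrib]
              congr 1
              rw [Finset.sum_ite_eq' (cl lev g0 w) w (fun _ => (1 : ℝ)),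
                if_pos (self_mem_cl hlev g0 w)]
            rw [h5]
            exact hbase
          | succ h hh ih2 =>
            intro hhg
            have h6 := ih2 (by omega)
            have hP : cl lev (h + 1) w ∈ clusters lev (h + 1) := cl_mem_clusters lev (h + 1) w
            rw [← sum_children hlev hP, ← sum_children hlev hP]
            refine Finset.sum_le_sum fun v hv => ?_
            have hv' := hv
            unfold children at hv'
            rw [mem_image] at hv'
            obtain ⟨j, hj, rfl⟩ := hv'
            by_cases hwv : w ∈ cl lev h j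
            · have h7 : cl lev h w = cl lev h j := cl_eq hlev hwv
              rw [← h7]
              exact h6
            · rw [hsum1 _ hwv]
              refine ih htn' h (by omega) j (Or.inr fun h8 => hnF ?_)
              have h9 : w ∈ cl lev (h + 1) j := by
                rw [mem_cl, hlev.symm]
                exact mem_cl.1 hj
              exact hFs t (g0 + 1) (h + 1) w (by omega) (hFc t (h + 1) j w h9 h8)
        have h7 : cl lev g w = cl lev g i := cl_eq hlev hw
        have h8 := key g hle le_rfl
        rw [h7] at h8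
        exact h8.trans (hρs _)
      · have h9 : ∑ j ∈ cl lev g i, φ (t + 1) j = ∑ j ∈ cl lev g i, φ t j := by
          refine Finset.sum_congr rfl fun j hj => ?_
          have hjw : j ≠ w := fun h => hw (by rw [← h]; exact hj)
          rw [hφ j, if_neg hjw, add_zero]
        rw [h9]
        exact hIH.trans (hρs _)

end Pool.Agent.H42V
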